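import Mathlib

namespace Pool.Agent.MdimSq

/-- absolute difference -/
def A (x y : ℤ) : ℤ := max (x - y) (y - x)

/-- Chebyshev distance -/
def D (a b c d : ℤ) : ℤ := max (A a c) (A b d)

/-- No two grid vertices agree on the three distances up to a transposition. -/
def NoColl (N p1 p2 q1 q2 r1 r2 : ℤ) : Prop :=
  ∀ a b c d : ℤ, 0 ≤ a → a ≤ N → 0 ≤ b → b ≤ N → 0 ≤ c → c ≤ N → 0 ≤ d → d ≤ N →
    (a ≠ c ∨ b ≠ d) →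
    ¬ (D a b p1 p2 = D c d p1 p2 ∧ D a b q1 q2 = D c d q1 q2 ∧ D a b r1 r2 = D c d r1 r2) ∧
    ¬ (D a b p1 p2 = D c d q1 q2 ∧ D a b q1 q2 = D c d p1 p2 ∧ D a b r1 r2 = D c d r1 r2) ∧
    ¬ (D a b p1 p2 = D c d r1 r2 ∧ D a b r1 r2 = D c d p1 p2 ∧ D a b q1 q2 = D c d q1 q2) ∧
    ¬ (D a b q1 q2 = D c d r1 r2 ∧ D a b r1 r2 = D c d q1 q2 ∧ D a b p1 p2 = D c d p1 p2)

variable {N p1 p2 q1 q2 r1 r2 : ℤ}

lemma NoColl.swap12 (h : NoColl N p1 p2 q1 q2 r1 r2) : NoColl N q1 q2 p1 p2 r1 r2 := by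
  intro a b c d h1 h2 h3 h4 h5 h6 h7 h8 h9
  obtain ⟨k1, k2, k3, k4⟩ := h a b c d h1 h2 h3 h4 h5 h6 h7 h8 h9
  refine ⟨?_, ?_, ?_, ?_⟩
  · rintro ⟨x, y, z⟩; exact k1 ⟨y, x, z⟩
  · rintro ⟨x, y, z⟩; exact k2 ⟨y, x, z⟩
  · rintro ⟨x, y, z⟩; exact k4 ⟨x, y, z⟩
  · rintro ⟨x, y, z⟩; exact k3 ⟨x, y, z⟩

lemma NoColl.swap23 (h : NoColl N p1 p2 q1 q2 r1 r2) : NoColl N p1 p2 r1 r2 q1 q2 := by
  intro a b c d h1 h2 h3 h4 h5 h6 h7 h8 h9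
  obtain ⟨k1, k2, k3, k4⟩ := h a b c d h1 h2 h3 h4 h5 h6 h7 h8 h9
  refine ⟨?_, ?_, ?_, ?_⟩
  · rintro ⟨x, y, z⟩; exact k1 ⟨x, z, y⟩
  · rintro ⟨x, y, z⟩; exact k3 ⟨x, y, z⟩
  · rintro ⟨x, y, z⟩; exact k2 ⟨x, y, z⟩
  · rintro ⟨x, y, z⟩; exact k4 ⟨y, x, z⟩

lemma NoColl.transpose (h : NoColl N p1 p2 q1 q2 r1 r2) : NoColl N p2 p1 q2 q1 r2 r1 := by
  intro a b c d h1 h2 h3 h4 h5 h6 h7 h8 h9
  have hD : ∀ a b c d : ℤ, D a b c d = D b a d c := fun a b c d => by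
    simp only [D]; exact max_comm _ _
  have := h b a d c h3 h4 h1 h2 h7 h8 h5 h6 h9.symm
  simp only [hD a b, hD c d]
  exact this

lemma NoColl.flip1 (h : NoColl N p1 p2 q1 q2 r1 r2) :
    NoColl N (N - p1) p2 (N - q1) q2 (N - r1) r2 := by
  intro a b c d h1 h2 h3 h4 h5 h6 h7 h8 h9
  have hD : ∀ a b c d : ℤ, D a b (N - c) d = D (N - a) b c d := fun a b c d => by
    simp only [D, A]; congr 1; rw [max_comm]; congr 1 <;> ring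
  have := h (N - a) b (N - c) d (by omega) (by omega) h3 h4 (by omega) (by omega) h7 h8
    (by omega)
  simp only [hD]
  exact this

lemma NoColl.flip2 (h : NoColl N p1 p2 q1 q2 r1 r2) :
    NoColl N p1 (N - p2) q1 (N - q2) r1 (N - r2) := h.transpose.flip1.transpose

lemma col (hN : 1 ≤ N) (hp2 : 0 ≤ p2) (hp2' : p2 ≤ N)
    (hq2 : 0 ≤ q2) (hq2' : q2 ≤ N)
    (hr2 : 0 ≤ r2) (hr2' : r2 ≤ N)
    (h : NoColl N p1 p2 q1 q2 r1 r2) (X : ℤ) (h0 : 0 ≤ X) (hX : X ≤ N) :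
    p1 = X ∨ q1 = X ∨ r1 = X ∨ A X p1 + A X q1 ≤ A p2 q2 ∨ A X p1 + A X r1 ≤ A p2 r2 ∨
      A X q1 + A X r1 ≤ A q2 r2 := by
  by_contra hc
  push Not at hc
  obtain ⟨k1, k2, k3, k4, k5, k6⟩ := hc
  obtain ⟨a, ha⟩ : ∃ a, a = A X p1 := ⟨_, rfl⟩
  obtain ⟨b, hb⟩ : ∃ b, b = A X q1 := ⟨_, rfl⟩
  obtain ⟨c, hc⟩ : ∃ c, c = A X r1 := ⟨_, rfl⟩
  have ha1 : 1 ≤ a := by rw [ha]; simp only [A]; omega
  have hb1 : 1 ≤ b := by rw [hb]; simp only [A]; omega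
  have hc1 : 1 ≤ c := by rw [hc]; simp only [A]; omega
  rw [← ha, ← hb] at k4
  rw [← ha, ← hc] at k5
  rw [← hb, ← hc] at k6
  simp only [A] at k4 k5 k6
  obtain ⟨l, hl0, hlp, hlq, hlr, hl⟩ : ∃ l : ℤ, 0 ≤ l ∧ p2 - a ≤ l ∧ q2 - b ≤ l ∧ r2 - c ≤ l ∧
      (l = 0 ∨ l = p2 - a ∨ l = q2 - b ∨ l = r2 - c) := by
    refine ⟨max 0 (max (p2 - a) (max (q2 - b) (r2 - c))), ?_, ?_, ?_, ?_, ?_⟩ <;> omega
  have hlN : l + 1 ≤ N := by omega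
  have hl1 : l + 1 ≤ p2 + a := by omega
  have hl2 : l + 1 ≤ q2 + b := by omega
  have hl3 : l + 1 ≤ r2 + c := by omega
  have key := (h X l X (l + 1) h0 hX hl0 (by omega) h0 hX (by omega) hlN (by omega)).1
  apply key
  simp only [D]
  rw [← ha, ← hb, ← hc]
  simp only [A]
  refine ⟨?_, ?_, ?_⟩ <;> omega

end Pool.Agent.MdimSq
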