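import Pool.Agent.MdimSq.Core1

namespace Pool.Agent.MdimSq

/-- the three-point family containing two ends of a diagonal -/
lemma famC_half {N a x y : ℤ} (hN : 3 ≤ N) (ha : 0 ≤ a) (ha' : a ≤ N - 1) (hx : 0 ≤ x) (hx' : x ≤ N)
    (hy : 0 ≤ y) (hy' : y ≤ N) (h1 : x + a ≤ y) (h2 : a ≤ x + y) (h3 : x + y ≤ N)
    (hd : x ≠ a ∨ y ≠ 0) (h : NoColl N a 0 N (N - a) x y) : False := by
  -- the reflection in the main diagonal
  by_cases hdiag : a = 0 ∧ y = x
  · obtain ⟨rfl, rfl⟩ := hdiag
    refine (h 0 1 1 0 (by omega) (by omega) (by omega) (by omega) (by omega) (by omega) (by omega)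
      (by omega) (by omega)).1 ?_
    simp only [D, A]
    refine ⟨?_, ?_, ?_⟩ <;> omega
  rcases Int.even_or_odd' (N + a) with ⟨k, hk | hk⟩
  · by_cases hxy : x + y = N
    · refine (h (k + 1) (k - a + 1) (k - 1) (k - a - 1) (by omega) (by omega) (by omega) (by omega)
        (by omega) (by omega) (by omega) (by omega) (by omega)).2.1 ?_
      simp only [D, A]
      refine ⟨?_, ?_, ?_⟩ <;> omega
    · refine (h k (k - a + 1) k (k - a - 1) (by omega) (by omega) (by omega) (by omega)
        (by omega) (by omega) (by omega) (by omega) (by omega)).2.1 ?_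
      simp only [D, A]
      refine ⟨?_, ?_, ?_⟩ <;> omega
  · rcases Int.even_or_odd' (x + a) with ⟨j, hj | hj⟩
    · rcases Int.even_or_odd' y with ⟨l, hl | hl⟩
      · refine (h j (l - 1) j (l + 1) (by omega) (by omega) (by omega) (by omega)
          (by omega) (by omega) (by omega) (by omega) (by omega)).2.2.1 ?_
        simp only [D, A]
        refine ⟨?_, ?_, ?_⟩ <;> omega
      · refine (h j l j (l + 1) (by omega) (by omega) (by omega) (by omega)
          (by omega) (by omega) (by omega) (by omega) (by omega)).2.2.1 ?_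
        simp only [D, A]
        refine ⟨?_, ?_, ?_⟩ <;> omega
    · by_cases ha0 : a = 0 ∧ y = x + 1
      · obtain ⟨rfl, rfl⟩ := ha0
        by_cases hxN : 2 * x + 1 = N
        · refine (h (k + 1) (k + 1) k k (by omega) (by omega) (by omega) (by omega)
            (by omega) (by omega) (by omega) (by omega) (by omega)).2.1 ?_
          simp only [D, A]
          refine ⟨?_, ?_, ?_⟩ <;> omega
        · refine (h (k + 1) (k - 1) k (k + 2) (by omega) (by omega) (by omega) (by omega)
            (by omega) (by omega) (by omega) (by omega) (by omega)).2.1 ?_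
          simp only [D, A]
          refine ⟨?_, ?_, ?_⟩ <;> omega
      · by_cases hc : 2 * N < x + y + a + 2
        · refine (h 0 0 N N (by omega) (by omega) (by omega) (by omega)
            (by omega) (by omega) (by omega) (by omega) (by omega)).2.1 ?_
          simp only [D, A]
          refine ⟨?_, ?_, ?_⟩ <;> omega
        · obtain ⟨m, hm⟩ : ∃ m : ℤ, N + x = 2 * m := ⟨(N + x) / 2, by omega⟩
          obtain ⟨Y, hY0, hYp, hYq, hYr, hY⟩ : ∃ Y : ℤ, 0 ≤ Y ∧ m - a + 1 ≤ Y ∧ a - m + 1 ≤ Y ∧
              y - (N - m) + 1 ≤ Y ∧ (Y = 0 ∨ Y = m - a + 1 ∨ Y = a - m + 1 ∨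
                Y = y - (N - m) + 1) := by
            refine ⟨max 0 (max (m - a + 1) (max (a - m + 1) (y - (N - m) + 1))), ?_, ?_, ?_, ?_, ?_⟩
              <;> omega
          have hU1 : Y ≤ N - a + (N - m) - 1 := by omega
          have hU2 : Y ≤ y + (N - m) - 1 := by omega
          have hU3 : Y ≤ N := by omega
          refine (h (m - 1) Y (m + 1) Y (by omega) (by omega) (by omega) (by omega)
            (by omega) (by omega) (by omega) (by omega) (by omega)).2.2.2 ?_
          simp only [D, A]
          refine ⟨?_, ?_, ?_⟩ <;> omega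

lemma famC {N a x y : ℤ} (hN : 3 ≤ N) (ha : 0 ≤ a) (ha' : a ≤ N - 1) (hx : 0 ≤ x) (hx' : x ≤ N)
    (hy : 0 ≤ y) (hy' : y ≤ N) (h1 : x + a ≤ y) (h2 : a ≤ x + y) (h3 : x + y ≤ 2 * N - a)
    (hd : x ≠ a ∨ y ≠ 0) (hd' : x ≠ N ∨ y ≠ N - a) (h : NoColl N a 0 N (N - a) x y) : False := by
  by_cases hxy : x + y ≤ N
  · exact famC_half hN ha ha' hx hx' hy hy' h1 h2 hxy hd h
  · have h' := h.transpose.flip1.flip2.swap12
    have e1 : N - (N - a) = a := by ring
    have e2 : N - N = 0 := by ring
    have e3 : N - 0 = N := by ring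
    rw [e1, e2, e3] at h'
    exact famC_half hN ha ha' (by omega) (by omega) (by omega) (by omega) (by omega) (by omega)
      (by omega) (by omega) h'

end Pool.Agent.MdimSq
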