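import Pool.Agent.MdimSq.Core2

namespace Pool.Agent.MdimSq

variable {N p1 p2 q1 q2 r1 r2 : ℤ}

lemma A_comm (x y : ℤ) : A x y = A y x := by simp only [A]; omega

/-- all three points in the square -/
def Inb (N p1 p2 q1 q2 r1 r2 : ℤ) : Prop :=
  (0 ≤ p1 ∧ p1 ≤ N ∧ 0 ≤ p2 ∧ p2 ≤ N) ∧ (0 ≤ q1 ∧ q1 ≤ N ∧ 0 ≤ q2 ∧ q2 ≤ N) ∧
    (0 ≤ r1 ∧ r1 ≤ N ∧ 0 ≤ r2 ∧ r2 ≤ N)

/-- no collision, the three points pairwise distinct, in the square -/
def Bad (N p1 p2 q1 q2 r1 r2 : ℤ) : Prop :=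
  NoColl N p1 p2 q1 q2 r1 r2 ∧ Inb N p1 p2 q1 q2 r1 r2 ∧ (p1 ≠ q1 ∨ p2 ≠ q2) ∧
    (p1 ≠ r1 ∨ p2 ≠ r2) ∧ (q1 ≠ r1 ∨ q2 ≠ r2)

lemma Bad.swap12 (h : Bad N p1 p2 q1 q2 r1 r2) : Bad N q1 q2 p1 p2 r1 r2 := by
  obtain ⟨h1, ⟨a, b, c⟩, h3, h4, h5⟩ := h
  exact ⟨h1.swap12, ⟨b, a, c⟩, by omega, h5, h4⟩

lemma Bad.swap23 (h : Bad N p1 p2 q1 q2 r1 r2) : Bad N p1 p2 r1 r2 q1 q2 := by
  obtain ⟨h1, ⟨a, b, c⟩, h3, h4, h5⟩ := h
  exact ⟨h1.swap23, ⟨a, c, b⟩, h4, h3, by omega⟩

lemma Bad.transpose (h : Bad N p1 p2 q1 q2 r1 r2) : Bad N p2 p1 q2 q1 r2 r1 := by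
  obtain ⟨h1, ⟨a, b, c⟩, h3, h4, h5⟩ := h
  refine ⟨h1.transpose, ⟨?_, ?_, ?_⟩, ?_, ?_, ?_⟩ <;> omega

lemma Bad.flip1 (h : Bad N p1 p2 q1 q2 r1 r2) : Bad N (N - p1) p2 (N - q1) q2 (N - r1) r2 := by
  obtain ⟨h1, ⟨a, b, c⟩, h3, h4, h5⟩ := h
  refine ⟨h1.flip1, ⟨?_, ?_, ?_⟩, ?_, ?_, ?_⟩ <;> omega

lemma Bad.flip2 (h : Bad N p1 p2 q1 q2 r1 r2) : Bad N p1 (N - p2) q1 (N - q2) r1 (N - r2) := by
  obtain ⟨h1, ⟨a, b, c⟩, h3, h4, h5⟩ := h
  refine ⟨h1.flip2, ⟨?_, ?_, ?_⟩, ?_, ?_, ?_⟩ <;> omega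

lemma Bad.col (hN : 3 ≤ N) (h : Bad N p1 p2 q1 q2 r1 r2) (X : ℤ) (h0 : 0 ≤ X) (hX : X ≤ N) :
    p1 = X ∨ q1 = X ∨ r1 = X ∨ A X p1 + A X q1 ≤ A p2 q2 ∨ A X p1 + A X r1 ≤ A p2 r2 ∨
      A X q1 + A X r1 ≤ A q2 r2 := by
  obtain ⟨h1, ⟨a, b, c⟩, h3, h4, h5⟩ := h
  exact MdimSq.col (by omega) (by omega) (by omega) (by omega) (by omega) (by omega) (by omega)
    h1 X h0 hX

/-- not all three pairs are strictly flat -/
lemma not_all_flat (hN : 3 ≤ N) (h : Bad N p1 p2 q1 q2 r1 r2) (f1 : A p2 q2 < A p1 q1)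
    (f2 : A p2 r2 < A p1 r1) (f3 : A q2 r2 < A q1 r1) : False := by
  have key : ∀ X : ℤ, 0 ≤ X → X ≤ N → p1 = X ∨ q1 = X ∨ r1 = X := by
    intro X h0 hX
    rcases h.col hN X h0 hX with k | k | k | k | k | k
    · exact Or.inl k
    · exact Or.inr (Or.inl k)
    · exact Or.inr (Or.inr k)
    all_goals
      exfalso
      simp only [A] at k f1 f2 f3
      omega
  have k0 := key 0 (by omega) (by omega)
  have k1 := key 1 (by omega) (by omega)
  have k2 := key 2 (by omega) (by omega)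
  have k3 := key 3 (by omega) (by omega)
  omega

/-- exactly one steep pair, the third point on the right side, not below the middle -/
lemma one_steep_aux (hN : 3 ≤ N) (h : Bad N p1 p2 q1 q2 r1 r2) (f1 : A p1 q1 ≤ A p2 q2)
    (f2 : A p2 r2 < A p1 r1) (f3 : A q2 r2 < A q1 r1) (hr : r1 = N) (hr2 : 1 ≤ r2) : False := by
  have key : ∀ X : ℤ, 0 ≤ X → X ≤ N → r1 = X ∨ A X p1 + A X q1 ≤ A p2 q2 := by
    intro X h0 hX
    rcases h.col hN X h0 hX with k | k | k | k | k | k
    · right; simp only [A] at f1 f2 f3 ⊢; omega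
    · right; simp only [A] at f1 f2 f3 ⊢; omega
    · exact Or.inl k
    · exact Or.inr k
    · exfalso; simp only [A] at k f1 f2 f3; omega
    · exfalso; simp only [A] at k f1 f2 f3; omega
  obtain ⟨h1, ⟨a, b, c⟩, h3, h4, h5⟩ := id h
  subst hr
  by_cases hr2' : r2 ≤ r1 - 1
  · refine (h1 r1 (r2 - 1) r1 (r2 + 1) (by omega) (by omega) (by omega) (by omega)
      (by omega) (by omega) (by omega) (by omega) (by omega)).1 ?_
    simp only [D, A] at f2 f3 ⊢
    refine ⟨?_, ?_, ?_⟩ <;> omega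
  · have hr3 : r2 = r1 := by omega
    subst hr3
    have k0 := key 0 (by omega) (by omega)
    have k1 := key (r2 - 1) (by omega) (by omega)
    have k0' : A 0 p1 + A 0 q1 ≤ A p2 q2 := by omega
    have k1' : A (r2 - 1) p1 + A (r2 - 1) q1 ≤ A p2 q2 := by omega
    have hp : p1 ≤ r2 - 1 := by simp only [A] at f2; omega
    have hq : q1 ≤ r2 - 1 := by simp only [A] at f3; omega
    have E0 : p1 + q1 ≤ A p2 q2 := by
      clear k1' k1 k0 key f1 f2 f3
      simp only [A] at k0' ⊢; omega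
    have E1 : 2 * (r2 - 1) - (p1 + q1) ≤ A p2 q2 := by
      clear k0' k1 k0 key f1 f2 f3
      simp only [A] at k1' ⊢; omega
    have F2 : p1 < p2 := by
      clear k0' k1' k1 k0 key f1 f3 E0 E1
      simp only [A] at f2; omega
    have F3 : q1 < q2 := by
      clear k0' k1' k1 k0 key f1 f2 E0 E1
      simp only [A] at f3; omega
    clear k0' k1' k1 k0 key f1 f2 f3
    have e1 : (p2 = r2 ∧ p1 = r2 - 1 ∧ q1 = 0 ∧ q2 = 1) ∨
        (q2 = r2 ∧ q1 = r2 - 1 ∧ p1 = 0 ∧ p2 = 1) := by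
      rcases le_total p2 q2 with hle | hle
      · have : A p2 q2 = q2 - p2 := by simp only [A]; omega
        rw [this] at E0 E1
        right; omega
      · have : A p2 q2 = p2 - q2 := by simp only [A]; omega
        rw [this] at E0 E1
        left; omega
    clear E0 E1
    have row := h.transpose.col hN 0 (by omega) (by omega)
    rcases e1 with ⟨e1, e2, e3, e4⟩ | ⟨e1, e2, e3, e4⟩
    · subst e1 e3 e4
      simp only [A] at row
      omega
    · subst e1 e3 e4
      simp only [A] at row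
      omega

lemma one_steep (hN : 3 ≤ N) (h : Bad N p1 p2 q1 q2 r1 r2) (f1 : A p1 q1 ≤ A p2 q2)
    (f2 : A p2 r2 < A p1 r1) (f3 : A q2 r2 < A q1 r1) : False := by
  have hA : ∀ x y : ℤ, A (N - x) (N - y) = A x y := fun x y => by simp only [A]; omega
  have step : ∀ p1 p2 q1 q2 r1 r2 : ℤ, Bad N p1 p2 q1 q2 r1 r2 → A p1 q1 ≤ A p2 q2 →
      A p2 r2 < A p1 r1 → A q2 r2 < A q1 r1 → r1 = N → False := by
    intro p1 p2 q1 q2 r1 r2 h f1 f2 f3 hr
    by_cases hr2 : 1 ≤ r2
    · exact one_steep_aux hN h f1 f2 f3 hr hr2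
    · exact one_steep_aux hN h.flip2 (by rw [hA]; exact f1) (by rw [hA]; exact f2)
        (by rw [hA]; exact f3) hr (by have := h.2.1; unfold Inb at this; omega)
  by_cases hr : r1 = N
  · exact step _ _ _ _ _ _ h f1 f2 f3 hr
  by_cases hr0 : r1 = 0
  · exact step _ _ _ _ _ _ h.flip1 (by rw [hA]; exact f1) (by rw [hA]; exact f2)
        (by rw [hA]; exact f3) (by omega)
  have key : ∀ X : ℤ, 0 ≤ X → X ≤ N → r1 = X ∨ A X p1 + A X q1 ≤ A p2 q2 := by
    intro X h0 hX
    rcases h.col hN X h0 hX with k | k | k | k | k | k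
    · right; simp only [A] at f1 f2 f3 ⊢; omega
    · right; simp only [A] at f1 f2 f3 ⊢; omega
    · exact Or.inl k
    · exact Or.inr k
    · exfalso; simp only [A] at k f1 f2 f3; omega
    · exfalso; simp only [A] at k f1 f2 f3; omega
  obtain ⟨h1, ⟨a, b, c⟩, h3, h4, h5⟩ := id h
  have k0 := key 0 (by omega) (by omega)
  have k1 := key N (by omega) (by omega)
  have k0' : A 0 p1 + A 0 q1 ≤ A p2 q2 := by omega
  have k1' : A N p1 + A N q1 ≤ A p2 q2 := by omega
  clear k0 k1 key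
  have e0 : p1 + q1 ≤ A p2 q2 := by simp only [A] at k0' ⊢; omega
  have e1 : 2 * N - (p1 + q1) ≤ A p2 q2 := by simp only [A] at k1' ⊢; omega
  have e2 : A p2 q2 ≤ N := by simp only [A]; omega
  have e3 : A p2 q2 ≤ A p2 r2 + A q2 r2 := by simp only [A]; omega
  have e4 : A p2 q2 = N := by omega
  have e5 : p1 + q1 = N := by omega
  have e6 : N + 2 ≤ A p1 r1 + A q1 r1 := by omega
  simp only [A] at e6
  omega

/-- a diagonal pair of slope one, a steep pair and a flat pair -/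
lemma two_two_aux (hN : 3 ≤ N) (h : Bad N p1 p2 q1 q2 r1 r2) (d1 : p1 < q1)
    (d2 : q1 - p1 = q2 - p2) (f1 : A p1 r1 ≤ A p2 r2) (f2 : A q2 r2 ≤ A q1 r1) : False := by
  obtain ⟨h1, ⟨a, b, c⟩, h3, h4, h5⟩ := id h
  by_cases hdiag : p1 = p2 ∧ q1 = q2 ∧ r1 = r2
  · obtain ⟨e1, e2, e3⟩ := hdiag
    subst e1 e2 e3
    refine (h1 0 1 1 0 (by omega) (by omega) (by omega) (by omega) (by omega) (by omega) (by omega)
      (by omega) (by omega)).1 ?_
    clear f1 f2
    simp only [D, A]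
    refine ⟨?_, ?_, ?_⟩ <;> omega
  have reg : r1 - p1 = r2 - p2 ∨ (p1 - r1 ≤ r2 - p2 ∧ r1 - p1 ≤ r2 - p2 ∧
      (r1 - p1) + (r2 - p2) ≤ 2 * (q1 - p1)) := by
    simp only [A] at f1 f2
    omega
  clear f1 f2
  by_cases hlow : r1 - p1 = r2 - p2 ∧ r1 < p1
  · have e1 : r1 = 0 := by
      rcases h.col hN 0 (by omega) (by omega) with k | k | k | k | k | k <;>
        (try simp only [A] at k) <;> omega
    have e2 : q1 = N := by
      rcases h.col hN N (by omega) (by omega) with k | k | k | k | k | k <;>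
        (try simp only [A] at k) <;> omega
    have e3 : r2 = 0 := by
      rcases h.transpose.col hN 0 (by omega) (by omega) with k | k | k | k | k | k <;>
        (try simp only [A] at k) <;> omega
    omega
  by_cases hhigh : r1 - p1 = r2 - p2 ∧ q1 < r1
  · have e1 : p1 = 0 := by
      rcases h.col hN 0 (by omega) (by omega) with k | k | k | k | k | k <;>
        (try simp only [A] at k) <;> omega
    have e3 : p2 = 0 := by
      rcases h.transpose.col hN 0 (by omega) (by omega) with k | k | k | k | k | k <;>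
        (try simp only [A] at k) <;> omega
    omega
  have reg' : p1 - r1 ≤ r2 - p2 ∧ r1 - p1 ≤ r2 - p2 ∧
      (r1 - p1) + (r2 - p2) ≤ 2 * (q1 - p1) := by omega
  clear reg hlow hhigh hdiag
  have e1 : q1 = N := by
    rcases h.col hN N (by omega) (by omega) with k | k | k | k | k | k <;>
        (try simp only [A] at k) <;> omega
  have e2 : p2 = 0 := by
    rcases h.transpose.col hN 0 (by omega) (by omega) with k | k | k | k | k | k <;>
        (try simp only [A] at k) <;> omega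
  have e3 : 2 * p1 ≤ (r2 - p2) - (r1 - p1) := by
    rcases h.col hN 0 (by omega) (by omega) with k | k | k | k | k | k <;>
        (try simp only [A] at k) <;> omega
  have e4 : q2 = N - p1 := by omega
  subst e1 e2 e4
  exact famC hN (by omega) (by omega) (by omega) (by omega) (by omega) (by omega) (by omega)
    (by omega) (by omega) (by omega) (by omega) h1

lemma two_two (hN : 3 ≤ N) (h : Bad N p1 p2 q1 q2 r1 r2) (d : A p1 q1 = A p2 q2)
    (f1 : A p1 r1 ≤ A p2 r2) (f2 : A q2 r2 ≤ A q1 r1) : False := by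
  have hA : ∀ x y : ℤ, A (N - x) (N - y) = A x y := fun x y => by simp only [A]; omega
  have step : ∀ p1 p2 q1 q2 r1 r2 : ℤ, Bad N p1 p2 q1 q2 r1 r2 → A p1 q1 = A p2 q2 →
      A p1 r1 ≤ A p2 r2 → A q2 r2 ≤ A q1 r1 → p1 < q1 → False := by
    intro p1 p2 q1 q2 r1 r2 h d f1 f2 hr
    by_cases hr2 : p2 < q2
    · exact two_two_aux hN h hr (by simp only [A] at d; omega) f1 f2
    · exact two_two_aux hN h.flip2 hr (by simp only [A] at d; omega) (by rw [hA]; exact f1)
        (by rw [hA]; exact f2)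
  by_cases hr : p1 < q1
  · exact step _ _ _ _ _ _ h d f1 f2 hr
  · exact step _ _ _ _ _ _ h.flip1 (by rw [hA]; exact d) (by rw [hA]; exact f1)
        (by rw [hA]; exact f2) (by have := h.2.2.1; simp only [A] at d; omega)

/-- There is no collision-free triple of distinct points. -/
theorem not_bad (hN : 3 ≤ N) (h : Bad N p1 p2 q1 q2 r1 r2) : False := by
  have c1 := A_comm p1 q1
  have c2 := A_comm p2 q2
  have c3 := A_comm p1 r1
  have c4 := A_comm p2 r2
  have c5 := A_comm q1 r1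
  have c6 := A_comm q2 r2
  -- counting steep pairs
  by_cases s12 : A p1 q1 ≤ A p2 q2
  · by_cases s13 : A p1 r1 ≤ A p2 r2
    · by_cases g12 : A p2 q2 ≤ A p1 q1
      · by_cases g23 : A q2 r2 ≤ A q1 r1
        · exact two_two hN h (by omega) s13 g23
        · by_cases g13 : A p2 r2 ≤ A p1 r1
          · exact two_two hN h.swap12 (by omega) (by omega) g13
          · exact one_steep hN h.transpose g12 (by omega) (by omega)
      · by_cases g13 : A p2 r2 ≤ A p1 r1
        · by_cases g23 : A q2 r2 ≤ A q1 r1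
          · exact two_two hN h.swap23 (by omega) s12 (by omega)
          · exact one_steep hN h.transpose.swap23 (by omega) (by omega) (by omega)
        · by_cases g23 : A q2 r2 ≤ A q1 r1
          · exact one_steep hN h.transpose.swap12.swap23.swap12.swap12 (by omega) (by omega)
              (by omega)
          · exact not_all_flat hN h.transpose (by omega) (by omega) (by omega)
    · by_cases s23 : A q1 r1 ≤ A q2 r2
      · by_cases g12 : A p2 q2 ≤ A p1 q1
        · exact two_two hN h.swap12 (by omega) s23 (by omega)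
        · by_cases g23 : A q2 r2 ≤ A q1 r1
          · exact two_two hN h.swap12.swap23 (by omega) (by omega) (by omega)
          · exact one_steep hN h.transpose.swap23 (by omega) (by omega) (by omega)
      · exact one_steep hN h s12 (by omega) (by omega)
  · by_cases s13 : A p1 r1 ≤ A p2 r2
    · by_cases s23 : A q1 r1 ≤ A q2 r2
      · by_cases g13 : A p2 r2 ≤ A p1 r1
        · exact two_two hN h.swap23.swap12 (by omega) (by omega) (by omega)
        · by_cases g23 : A q2 r2 ≤ A q1 r1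
          · exact two_two hN h.swap12.swap23.swap12 (by omega) (by omega) (by omega)
          · exact one_steep hN h.transpose (by omega) (by omega) (by omega)
      · exact one_steep hN h.swap23 (by omega) (by omega) (by omega)
    · by_cases s23 : A q1 r1 ≤ A q2 r2
      · exact one_steep hN h.swap12.swap23 (by omega) (by omega) (by omega)
      · exact not_all_flat hN h (by omega) (by omega) (by omega)

end Pool.Agent.MdimSq
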