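import Pool.Agent.MdimSq.Core3

namespace Pool.Agent.MdimSq

/-- Rectangular version of `NoColl`. -/
def NoCollR (N M p1 p2 q1 q2 r1 r2 : ℤ) : Prop :=
  ∀ a b c d : ℤ, 0 ≤ a → a ≤ N → 0 ≤ b → b ≤ M → 0 ≤ c → c ≤ N → 0 ≤ d → d ≤ M →
    (a ≠ c ∨ b ≠ d) →
    ¬ (D a b p1 p2 = D c d p1 p2 ∧ D a b q1 q2 = D c d q1 q2 ∧ D a b r1 r2 = D c d r1 r2) ∧
    ¬ (D a b p1 p2 = D c d q1 q2 ∧ D a b q1 q2 = D c d p1 p2 ∧ D a b r1 r2 = D c d r1 r2) ∧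
    ¬ (D a b p1 p2 = D c d r1 r2 ∧ D a b r1 r2 = D c d p1 p2 ∧ D a b q1 q2 = D c d q1 q2) ∧
    ¬ (D a b q1 q2 = D c d r1 r2 ∧ D a b r1 r2 = D c d q1 q2 ∧ D a b p1 p2 = D c d p1 p2)

variable {N M p1 p2 q1 q2 r1 r2 : ℤ}

lemma NoCollR.swap12 (h : NoCollR N M p1 p2 q1 q2 r1 r2) : NoCollR N M q1 q2 p1 p2 r1 r2 := by
  intro a b c d h1 h2 h3 h4 h5 h6 h7 h8 h9
  obtain ⟨k1, k2, k3, k4⟩ := h a b c d h1 h2 h3 h4 h5 h6 h7 h8 h9
  refine ⟨?_, ?_, ?_, ?_⟩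
  · rintro ⟨x, y, z⟩; exact k1 ⟨y, x, z⟩
  · rintro ⟨x, y, z⟩; exact k2 ⟨y, x, z⟩
  · rintro ⟨x, y, z⟩; exact k4 ⟨x, y, z⟩
  · rintro ⟨x, y, z⟩; exact k3 ⟨x, y, z⟩

lemma NoCollR.swap23 (h : NoCollR N M p1 p2 q1 q2 r1 r2) : NoCollR N M p1 p2 r1 r2 q1 q2 := by
  intro a b c d h1 h2 h3 h4 h5 h6 h7 h8 h9
  obtain ⟨k1, k2, k3, k4⟩ := h a b c d h1 h2 h3 h4 h5 h6 h7 h8 h9
  refine ⟨?_, ?_, ?_, ?_⟩
  · rintro ⟨x, y, z⟩; exact k1 ⟨x, z, y⟩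
  · rintro ⟨x, y, z⟩; exact k3 ⟨x, y, z⟩
  · rintro ⟨x, y, z⟩; exact k2 ⟨x, y, z⟩
  · rintro ⟨x, y, z⟩; exact k4 ⟨y, x, z⟩

lemma NoCollR.transpose (h : NoCollR N M p1 p2 q1 q2 r1 r2) :
    NoCollR M N p2 p1 q2 q1 r2 r1 := by
  intro a b c d h1 h2 h3 h4 h5 h6 h7 h8 h9
  have hD : ∀ a b c d : ℤ, D a b c d = D b a d c := fun a b c d => by
    simp only [D]; exact max_comm _ _
  have := h b a d c h3 h4 h1 h2 h7 h8 h5 h6 h9.symm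
  simp only [hD a b, hD c d]
  exact this

lemma NoCollR.flip1 (h : NoCollR N M p1 p2 q1 q2 r1 r2) :
    NoCollR N M (N - p1) p2 (N - q1) q2 (N - r1) r2 := by
  intro a b c d h1 h2 h3 h4 h5 h6 h7 h8 h9
  have hD : ∀ a b c d : ℤ, D a b (N - c) d = D (N - a) b c d := fun a b c d => by
    simp only [D, A]; congr 1; rw [max_comm]; congr 1 <;> ring
  have := h (N - a) b (N - c) d (by omega) (by omega) h3 h4 (by omega) (by omega) h7 h8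
    (by omega)
  simp only [hD]
  exact this

lemma NoCollR.flip2 (h : NoCollR N M p1 p2 q1 q2 r1 r2) :
    NoCollR N M p1 (M - p2) q1 (M - q2) r1 (M - r2) := h.transpose.flip1.transpose

lemma colR (hM : 1 ≤ M) (hp2 : 0 ≤ p2) (hp2' : p2 ≤ M)
    (hq2 : 0 ≤ q2) (hq2' : q2 ≤ M)
    (hr2 : 0 ≤ r2) (hr2' : r2 ≤ M)
    (h : NoCollR N M p1 p2 q1 q2 r1 r2) (X : ℤ) (h0 : 0 ≤ X) (hX : X ≤ N) :
    p1 = X ∨ q1 = X ∨ r1 = X ∨ A X p1 + A X q1 ≤ A p2 q2 ∨ A X p1 + A X r1 ≤ A p2 r2 ∨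
      A X q1 + A X r1 ≤ A q2 r2 := by
  by_contra hc
  push Not at hc
  obtain ⟨k1, k2, k3, k4, k5, k6⟩ := hc
  obtain ⟨a, ha⟩ : ∃ a, a = A X p1 := ⟨_, rfl⟩
  obtain ⟨b, hb⟩ : ∃ b, b = A X q1 := ⟨_, rfl⟩
  obtain ⟨c, hc⟩ : ∃ c, c = A X r1 := ⟨_, rfl⟩
  have ha1 : 1 ≤ a := by rw [ha]; simp only [A]; omega
  have hb1 : 1 ≤ b := by rw [hb]; simp only [A]; omega
  have hc1 : 1 ≤ c := by rw [hc]; simp only [A]; omega
  rw [← ha, ← hb] at k4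
  rw [← ha, ← hc] at k5
  rw [← hb, ← hc] at k6
  simp only [A] at k4 k5 k6
  obtain ⟨l, hl0, hlp, hlq, hlr, hl⟩ : ∃ l : ℤ, 0 ≤ l ∧ p2 - a ≤ l ∧ q2 - b ≤ l ∧ r2 - c ≤ l ∧
      (l = 0 ∨ l = p2 - a ∨ l = q2 - b ∨ l = r2 - c) := by
    refine ⟨max 0 (max (p2 - a) (max (q2 - b) (r2 - c))), ?_, ?_, ?_, ?_, ?_⟩ <;> omega
  have hlN : l + 1 ≤ M := by omega
  have hl1 : l + 1 ≤ p2 + a := by omega
  have hl2 : l + 1 ≤ q2 + b := by omega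
  have hl3 : l + 1 ≤ r2 + c := by omega
  have key := (h X l X (l + 1) h0 hX hl0 (by omega) h0 hX (by omega) hlN (by omega)).1
  apply key
  simp only [D]
  rw [← ha, ← hb, ← hc]
  simp only [A]
  refine ⟨?_, ?_, ?_⟩ <;> omega

/-- the family containing two ends of a diagonal, in a proper rectangle -/
lemma famCR {N M a x y : ℤ} (hM : 3 ≤ M) (hNM : M < N) (ha : N - M ≤ a) (hx : 0 ≤ x)
    (hy : 0 ≤ y) (hy' : y ≤ M) (h1 : x + a ≤ y) (h2 : a ≤ x + y)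
    (h : NoCollR N M a 0 N (N - a) x y) : False := by
  rcases Int.even_or_odd' (N + a) with ⟨k, hk | hk⟩
  · by_cases hxy : x + y = N
    · refine (h (k + 1) (k - a + 1) (k - 1) (k - a - 1) (by omega) (by omega) (by omega) (by omega)
        (by omega) (by omega) (by omega) (by omega) (by omega)).2.1 ?_
      simp only [D, A]
      refine ⟨?_, ?_, ?_⟩ <;> omega
    · by_cases hxy' : x + y < N
      · refine (h k (k - a + 1) k (k - a - 1) (by omega) (by omega) (by omega) (by omega)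
          (by omega) (by omega) (by omega) (by omega) (by omega)).2.1 ?_
        simp only [D, A]
        refine ⟨?_, ?_, ?_⟩ <;> omega
      · refine (h (k + 1) (k - a) (k - 1) (k - a) (by omega) (by omega) (by omega) (by omega)
          (by omega) (by omega) (by omega) (by omega) (by omega)).2.1 ?_
        simp only [D, A]
        refine ⟨?_, ?_, ?_⟩ <;> omega
  · rcases Int.even_or_odd' (x + a) with ⟨j, hj | hj⟩
    · rcases Int.even_or_odd' y with ⟨l, hl | hl⟩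
      · refine (h j (l - 1) j (l + 1) (by omega) (by omega) (by omega) (by omega)
          (by omega) (by omega) (by omega) (by omega) (by omega)).2.2.1 ?_
        simp only [D, A]
        refine ⟨?_, ?_, ?_⟩ <;> omega
      · refine (h j l j (l + 1) (by omega) (by omega) (by omega) (by omega)
          (by omega) (by omega) (by omega) (by omega) (by omega)).2.2.1 ?_
        simp only [D, A]
        refine ⟨?_, ?_, ?_⟩ <;> omega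
    · obtain ⟨m, hm⟩ : ∃ m : ℤ, N + x = 2 * m := ⟨(N + x) / 2, by omega⟩
      obtain ⟨Y, hY0, hYp, hYq, hYr, hY⟩ : ∃ Y : ℤ, 0 ≤ Y ∧ m - a + 1 ≤ Y ∧ a - m + 1 ≤ Y ∧
          y - (N - m) + 1 ≤ Y ∧ (Y = 0 ∨ Y = m - a + 1 ∨ Y = a - m + 1 ∨
            Y = y - (N - m) + 1) := by
        refine ⟨max 0 (max (m - a + 1) (max (a - m + 1) (y - (N - m) + 1))), ?_, ?_, ?_, ?_, ?_⟩
          <;> omega
      have hU1 : Y ≤ N - a + (N - m) - 1 := by omega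
      have hU2 : Y ≤ y + (N - m) - 1 := by omega
      have hU3 : Y ≤ M := by omega
      refine (h (m - 1) Y (m + 1) Y (by omega) (by omega) (by omega) (by omega)
        (by omega) (by omega) (by omega) (by omega) (by omega)).2.2.2 ?_
      simp only [D, A]
      refine ⟨?_, ?_, ?_⟩ <;> omega

/-- no collision, the three points pairwise distinct, in the rectangle -/
def BadR (N M p1 p2 q1 q2 r1 r2 : ℤ) : Prop :=
  NoCollR N M p1 p2 q1 q2 r1 r2 ∧ ((0 ≤ p1 ∧ p1 ≤ N ∧ 0 ≤ p2 ∧ p2 ≤ M) ∧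
    (0 ≤ q1 ∧ q1 ≤ N ∧ 0 ≤ q2 ∧ q2 ≤ M) ∧ (0 ≤ r1 ∧ r1 ≤ N ∧ 0 ≤ r2 ∧ r2 ≤ M)) ∧
    (p1 ≠ q1 ∨ p2 ≠ q2) ∧ (p1 ≠ r1 ∨ p2 ≠ r2) ∧ (q1 ≠ r1 ∨ q2 ≠ r2)

lemma BadR.swap12 (h : BadR N M p1 p2 q1 q2 r1 r2) : BadR N M q1 q2 p1 p2 r1 r2 := by
  obtain ⟨h1, ⟨a, b, c⟩, h3, h4, h5⟩ := h
  exact ⟨h1.swap12, ⟨b, a, c⟩, by omega, h5, h4⟩

lemma BadR.swap23 (h : BadR N M p1 p2 q1 q2 r1 r2) : BadR N M p1 p2 r1 r2 q1 q2 := by
  obtain ⟨h1, ⟨a, b, c⟩, h3, h4, h5⟩ := h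
  exact ⟨h1.swap23, ⟨a, c, b⟩, h4, h3, by omega⟩

lemma BadR.flip1 (h : BadR N M p1 p2 q1 q2 r1 r2) :
    BadR N M (N - p1) p2 (N - q1) q2 (N - r1) r2 := by
  obtain ⟨h1, ⟨a, b, c⟩, h3, h4, h5⟩ := h
  refine ⟨h1.flip1, ⟨?_, ?_, ?_⟩, ?_, ?_, ?_⟩ <;> omega

lemma BadR.flip2 (h : BadR N M p1 p2 q1 q2 r1 r2) :
    BadR N M p1 (M - p2) q1 (M - q2) r1 (M - r2) := by
  obtain ⟨h1, ⟨a, b, c⟩, h3, h4, h5⟩ := h
  refine ⟨h1.flip2, ⟨?_, ?_, ?_⟩, ?_, ?_, ?_⟩ <;> omega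

lemma BadR.col (hM : 3 ≤ M) (h : BadR N M p1 p2 q1 q2 r1 r2) (X : ℤ) (h0 : 0 ≤ X)
    (hX : X ≤ N) :
    p1 = X ∨ q1 = X ∨ r1 = X ∨ A X p1 + A X q1 ≤ A p2 q2 ∨ A X p1 + A X r1 ≤ A p2 r2 ∨
      A X q1 + A X r1 ≤ A q2 r2 := by
  obtain ⟨h1, ⟨a, b, c⟩, h3, h4, h5⟩ := h
  exact colR (by omega) (by omega) (by omega) (by omega) (by omega) (by omega) (by omega)
    h1 X h0 hX

lemma BadR.row (hM : 3 ≤ M) (hNM : M < N) (h : BadR N M p1 p2 q1 q2 r1 r2) (X : ℤ) (h0 : 0 ≤ X)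
    (hX : X ≤ M) :
    p2 = X ∨ q2 = X ∨ r2 = X ∨ A X p2 + A X q2 ≤ A p1 q1 ∨ A X p2 + A X r2 ≤ A p1 r1 ∨
      A X q2 + A X r2 ≤ A q1 r1 := by
  obtain ⟨h1, ⟨a, b, c⟩, h3, h4, h5⟩ := h
  exact colR (by omega) (by omega) (by omega) (by omega) (by omega) (by omega) (by omega)
    h1.transpose X h0 hX

lemma not_all_flatR (hM : 3 ≤ M) (hNM : M < N) (h : BadR N M p1 p2 q1 q2 r1 r2)
    (f1 : A p2 q2 < A p1 q1) (f2 : A p2 r2 < A p1 r1) (f3 : A q2 r2 < A q1 r1) : False := by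
  have key : ∀ X : ℤ, 0 ≤ X → X ≤ N → p1 = X ∨ q1 = X ∨ r1 = X := by
    intro X h0 hX
    rcases h.col hM X h0 hX with k | k | k | k | k | k
    · exact Or.inl k
    · exact Or.inr (Or.inl k)
    · exact Or.inr (Or.inr k)
    all_goals
      exfalso
      simp only [A] at k f1 f2 f3
      omega
  clear f1 f2 f3
  have k0 := key 0 (by omega) (by omega)
  have k1 := key 1 (by omega) (by omega)
  have k2 := key 2 (by omega) (by omega)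
  have k3 := key 3 (by omega) (by omega)
  omega

/-- two strictly steep pairs meeting in `q` -/
lemma two_steepR (hM : 3 ≤ M) (hNM : M < N) (h : BadR N M p1 p2 q1 q2 r1 r2)
    (f1 : A p1 q1 < A p2 q2) (f2 : A q1 r1 < A q2 r2) : False := by
  obtain ⟨h1, ⟨a, b, c⟩, h3, h4, h5⟩ := id h
  by_cases hq : 1 ≤ q1 ∧ q1 ≤ N - 1
  · refine (h1 (q1 - 1) q2 (q1 + 1) q2 (by omega) (by omega) (by omega) (by omega)
      (by omega) (by omega) (by omega) (by omega) (by omega)).1 ?_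
    simp only [D, A] at f1 f2 ⊢
    refine ⟨?_, ?_, ?_⟩ <;> omega
  · by_cases hq0 : q1 = 0
    · rcases h.col hM N (by omega) (by omega) with k | k | k | k | k | k <;>
        simp only [A] at f1 f2 <;> (try simp only [A] at k) <;> omega
    · have hqN : q1 = N := by omega
      rcases h.col hM 0 (by omega) (by omega) with k | k | k | k | k | k <;>
        simp only [A] at f1 f2 <;> (try simp only [A] at k) <;> omega

end Pool.Agent.MdimSq
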