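import Pool.Agent.MdimSq.CoreR

namespace Pool.Agent.MdimSq

variable {N M p1 p2 q1 q2 r1 r2 : ℤ}

/-- exactly one steep pair, the third point on the right side, not in the bottom row -/
lemma one_steepR_aux (hM : 3 ≤ M) (hNM : M < N) (h : BadR N M p1 p2 q1 q2 r1 r2)
    (f1 : A p1 q1 ≤ A p2 q2) (f2 : A p2 r2 < A p1 r1) (f3 : A q2 r2 < A q1 r1) (hr : r1 = N)
    (hr2 : 1 ≤ r2) : False := by
  have key : ∀ X : ℤ, 0 ≤ X → X ≤ N → r1 = X ∨ A X p1 + A X q1 ≤ A p2 q2 := by
    intro X h0 hX
    rcases h.col hM X h0 hX with k | k | k | k | k | k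
    · right; simp only [A] at f1 f2 f3 ⊢; omega
    · right; simp only [A] at f1 f2 f3 ⊢; omega
    · exact Or.inl k
    · exact Or.inr k
    · exfalso; simp only [A] at k f1 f2 f3; omega
    · exfalso; simp only [A] at k f1 f2 f3; omega
  obtain ⟨h1, ⟨a, b, c⟩, h3, h4, h5⟩ := id h
  subst hr
  by_cases hr2' : r2 ≤ M - 1
  · refine (h1 r1 (r2 - 1) r1 (r2 + 1) (by omega) (by omega) (by omega) (by omega)
      (by omega) (by omega) (by omega) (by omega) (by omega)).1 ?_
    simp only [D, A] at f2 f3 ⊢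
    refine ⟨?_, ?_, ?_⟩ <;> omega
  · have hr3 : r2 = M := by omega
    subst hr3
    have k0 := key 0 (by omega) (by omega)
    have k1 := key (r1 - 1) (by omega) (by omega)
    have k0' : A 0 p1 + A 0 q1 ≤ A p2 q2 := by omega
    have k1' : A (r1 - 1) p1 + A (r1 - 1) q1 ≤ A p2 q2 := by omega
    have E0 : p1 + q1 ≤ A p2 q2 := by
      clear k1' k1 k0 key f1 f2 f3
      simp only [A] at k0' ⊢; omega
    have E1 : 2 * (r1 - 1) - (p1 + q1) ≤ A p2 q2 := by
      clear k0' k1 k0 key f1 f2 f3
      simp only [A] at k1' ⊢; omega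
    have E2 : A p2 q2 ≤ r2 := by
      clear k0' k1' k1 k0 key f1 f2 f3 E0 E1
      simp only [A]; omega
    have F2 : r2 - p2 < r1 - p1 := by
      clear k0' k1' k1 k0 key f1 f3 E0 E1 E2
      simp only [A] at f2; omega
    have F3 : r2 - q2 < r1 - q1 := by
      clear k0' k1' k1 k0 key f1 f2 E0 E1 E2
      simp only [A] at f3; omega
    clear k0' k1' k1 k0 key f1 f2 f3
    have hN : r1 = r2 + 1 := by omega
    have E3 : A p2 q2 = r2 := by omega
    have E4 : p1 + q1 = r2 := by omega
    have e1 : (p1 = 0 ∧ p2 = 0 ∧ q1 = r2 ∧ q2 = r2) ∨ (q1 = 0 ∧ q2 = 0 ∧ p1 = r2 ∧ p2 = r2) := by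
      rcases le_total p2 q2 with hle | hle
      · have : A p2 q2 = q2 - p2 := by simp only [A]; omega
        rw [this] at E3
        left; omega
      · have : A p2 q2 = p2 - q2 := by simp only [A]; omega
        rw [this] at E3
        right; omega
    clear E0 E1 E2 E3 E4 F2 F3
    rcases e1 with ⟨e1, e2, e3, e4⟩ | ⟨e1, e2, e3, e4⟩
    · rcases Int.even_or_odd' r2 with ⟨j, hj | hj⟩
      · refine (h1 j (j + 1) j (j - 1) (by omega) (by omega) (by omega) (by omega)
          (by omega) (by omega) (by omega) (by omega) (by omega)).2.1 ?_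
        simp only [D, A]
        refine ⟨?_, ?_, ?_⟩ <;> omega
      · refine (h1 (j + 1) (j - 1) j (j + 2) (by omega) (by omega) (by omega) (by omega)
          (by omega) (by omega) (by omega) (by omega) (by omega)).2.1 ?_
        simp only [D, A]
        refine ⟨?_, ?_, ?_⟩ <;> omega
    · rcases Int.even_or_odd' r2 with ⟨j, hj | hj⟩
      · refine (h1 j (j + 1) j (j - 1) (by omega) (by omega) (by omega) (by omega)
          (by omega) (by omega) (by omega) (by omega) (by omega)).2.1 ?_
        simp only [D, A]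
        refine ⟨?_, ?_, ?_⟩ <;> omega
      · refine (h1 (j + 1) (j - 1) j (j + 2) (by omega) (by omega) (by omega) (by omega)
          (by omega) (by omega) (by omega) (by omega) (by omega)).2.1 ?_
        simp only [D, A]
        refine ⟨?_, ?_, ?_⟩ <;> omega

lemma one_steepR (hM : 3 ≤ M) (hNM : M < N) (h : BadR N M p1 p2 q1 q2 r1 r2)
    (f1 : A p1 q1 ≤ A p2 q2) (f2 : A p2 r2 < A p1 r1) (f3 : A q2 r2 < A q1 r1) : False := by
  have hA : ∀ K x y : ℤ, A (K - x) (K - y) = A x y := fun K x y => by simp only [A]; omega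
  have step : ∀ p1 p2 q1 q2 r1 r2 : ℤ, BadR N M p1 p2 q1 q2 r1 r2 → A p1 q1 ≤ A p2 q2 →
      A p2 r2 < A p1 r1 → A q2 r2 < A q1 r1 → r1 = N → False := by
    intro p1 p2 q1 q2 r1 r2 h f1 f2 f3 hr
    by_cases hr2 : 1 ≤ r2
    · exact one_steepR_aux hM hNM h f1 f2 f3 hr hr2
    · exact one_steepR_aux hM hNM h.flip2 (by rw [hA]; exact f1) (by rw [hA]; exact f2)
        (by rw [hA]; exact f3) hr (by have := h.2.1; omega)
  by_cases hr : r1 = N
  · exact step _ _ _ _ _ _ h f1 f2 f3 hr
  by_cases hr0 : r1 = 0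
  · exact step _ _ _ _ _ _ h.flip1 (by rw [hA]; exact f1) (by rw [hA]; exact f2)
        (by rw [hA]; exact f3) (by omega)
  have key : ∀ X : ℤ, 0 ≤ X → X ≤ N → r1 = X ∨ A X p1 + A X q1 ≤ A p2 q2 := by
    intro X h0 hX
    rcases h.col hM X h0 hX with k | k | k | k | k | k
    · right; simp only [A] at f1 f2 f3 ⊢; omega
    · right; simp only [A] at f1 f2 f3 ⊢; omega
    · exact Or.inl k
    · exact Or.inr k
    · exfalso; simp only [A] at k f1 f2 f3; omega
    · exfalso; simp only [A] at k f1 f2 f3; omega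
  obtain ⟨h1, ⟨a, b, c⟩, h3, h4, h5⟩ := id h
  have k0 := key 0 (by omega) (by omega)
  have k1 := key N (by omega) (by omega)
  have k0' : A 0 p1 + A 0 q1 ≤ A p2 q2 := by omega
  have k1' : A N p1 + A N q1 ≤ A p2 q2 := by omega
  clear k0 k1 key f1 f2 f3
  have e0 : p1 + q1 ≤ A p2 q2 := by
    clear k1'
    simp only [A] at k0' ⊢; omega
  have e1 : 2 * N - (p1 + q1) ≤ A p2 q2 := by
    clear k0'
    simp only [A] at k1' ⊢; omega
  have e2 : A p2 q2 ≤ M := by simp only [A]; omega
  omega

/-- a diagonal pair of slope one, a steep pair and a flat pair -/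
lemma two_twoR_aux (hM : 3 ≤ M) (hNM : M < N) (h : BadR N M p1 p2 q1 q2 r1 r2) (d1 : p1 < q1)
    (d2 : q1 - p1 = q2 - p2) (f1 : A p1 r1 ≤ A p2 r2) (f2 : A q2 r2 ≤ A q1 r1) : False := by
  obtain ⟨h1, ⟨a, b, c⟩, h3, h4, h5⟩ := id h
  have reg : r1 - p1 = r2 - p2 ∨ (p1 - r1 ≤ r2 - p2 ∧ r1 - p1 ≤ r2 - p2 ∧
      (r1 - p1) + (r2 - p2) ≤ 2 * (q1 - p1)) := by
    simp only [A] at f1 f2
    omega
  clear f1 f2
  by_cases hlow : r1 - p1 = r2 - p2 ∧ r1 < p1
  · have e1 : r1 = 0 := by
      rcases h.col hM 0 (by omega) (by omega) with k | k | k | k | k | k <;>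
        (try simp only [A] at k) <;> omega
    have e2 : q1 = N := by
      rcases h.col hM N (by omega) (by omega) with k | k | k | k | k | k <;>
        (try simp only [A] at k) <;> omega
    omega
  by_cases hhigh : r1 - p1 = r2 - p2 ∧ q1 < r1
  · have e1 : p1 = 0 := by
      rcases h.col hM 0 (by omega) (by omega) with k | k | k | k | k | k <;>
        (try simp only [A] at k) <;> omega
    have e2 : r1 = N := by
      rcases h.col hM N (by omega) (by omega) with k | k | k | k | k | k <;>
        (try simp only [A] at k) <;> omega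
    omega
  have reg' : p1 - r1 ≤ r2 - p2 ∧ r1 - p1 ≤ r2 - p2 ∧
      (r1 - p1) + (r2 - p2) ≤ 2 * (q1 - p1) := by omega
  clear reg hlow hhigh
  have e1 : q1 = N := by
    rcases h.col hM N (by omega) (by omega) with k | k | k | k | k | k <;>
        (try simp only [A] at k) <;> omega
  have e2 : p2 = 0 := by
    rcases h.row hM hNM 0 (by omega) (by omega) with k | k | k | k | k | k <;>
        (try simp only [A] at k) <;> omega
  have e3 : 2 * p1 ≤ (r2 - p2) - (r1 - p1) := by
    rcases h.col hM 0 (by omega) (by omega) with k | k | k | k | k | k <;>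
        (try simp only [A] at k) <;> omega
  have e4 : q2 = N - p1 := by omega
  subst e1 e2 e4
  exact famCR hM hNM (by omega) (by omega) (by omega) (by omega) (by omega) (by omega) h1

lemma two_twoR (hM : 3 ≤ M) (hNM : M < N) (h : BadR N M p1 p2 q1 q2 r1 r2)
    (d : A p1 q1 = A p2 q2) (f1 : A p1 r1 ≤ A p2 r2) (f2 : A q2 r2 ≤ A q1 r1) : False := by
  have hA : ∀ K x y : ℤ, A (K - x) (K - y) = A x y := fun K x y => by simp only [A]; omega
  have step : ∀ p1 p2 q1 q2 r1 r2 : ℤ, BadR N M p1 p2 q1 q2 r1 r2 → A p1 q1 = A p2 q2 →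
      A p1 r1 ≤ A p2 r2 → A q2 r2 ≤ A q1 r1 → p1 < q1 → False := by
    intro p1 p2 q1 q2 r1 r2 h d f1 f2 hr
    by_cases hr2 : p2 < q2
    · exact two_twoR_aux hM hNM h hr (by simp only [A] at d; omega) f1 f2
    · exact two_twoR_aux hM hNM h.flip2 hr (by simp only [A] at d; omega) (by rw [hA]; exact f1)
        (by rw [hA]; exact f2)
  by_cases hr : p1 < q1
  · exact step _ _ _ _ _ _ h d f1 f2 hr
  · exact step _ _ _ _ _ _ h.flip1 (by rw [hA]; exact d) (by rw [hA]; exact f1)
        (by rw [hA]; exact f2) (by have := h.2.2.1; simp only [A] at d; omega)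

/-- There is no collision-free triple of distinct points in a proper rectangle. -/
theorem not_badR (hM : 3 ≤ M) (hNM : M < N) (h : BadR N M p1 p2 q1 q2 r1 r2) : False := by
  have c1 := A_comm p1 q1
  have c2 := A_comm p2 q2
  have c3 := A_comm p1 r1
  have c4 := A_comm p2 r2
  have c5 := A_comm q1 r1
  have c6 := A_comm q2 r2
  have h213 := h.swap12
  have h132 := h.swap23
  have h231 := h.swap12.swap23
  have h312 := h.swap23.swap12
  have h321 := h.swap12.swap23.swap12
  by_cases s12 : A p1 q1 ≤ A p2 q2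
  · by_cases s13 : A p1 r1 ≤ A p2 r2
    · -- apex p: pairs (p,q), (p,r) steep
      by_cases g12 : A p2 q2 ≤ A p1 q1
      · -- (p,q) diagonal
        by_cases g23 : A q2 r2 ≤ A q1 r1
        · exact two_twoR hM hNM h (by omega) s13 g23
        · by_cases g13 : A p2 r2 ≤ A p1 r1
          · exact two_twoR hM hNM h213 (by omega) (by omega) (by omega)
          · -- (p,r), (q,r) strictly steep: apex r
            exact two_steepR hM hNM h132 (by omega) (by omega)
      · by_cases g13 : A p2 r2 ≤ A p1 r1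
        · -- (p,r) diagonal, (p,q) strictly steep
          by_cases g23 : A q2 r2 ≤ A q1 r1
          · exact two_twoR hM hNM h132 (by omega) s12 (by omega)
          · -- apex q
            exact two_steepR hM hNM h (by omega) (by omega)
        · -- apex p
          exact two_steepR hM hNM h213 (by omega) (by omega)
    · by_cases s23 : A q1 r1 ≤ A q2 r2
      · -- apex q : pairs (p,q), (q,r) steep, (p,r) strictly flat
        by_cases g12 : A p2 q2 ≤ A p1 q1
        · exact two_twoR hM hNM h213 (by omega) s23 (by omega)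
        · by_cases g23 : A q2 r2 ≤ A q1 r1
          · exact two_twoR hM hNM h231 (by omega) (by omega) (by omega)
          · exact two_steepR hM hNM h (by omega) (by omega)
      · exact one_steepR hM hNM h s12 (by omega) (by omega)
  · by_cases s13 : A p1 r1 ≤ A p2 r2
    · by_cases s23 : A q1 r1 ≤ A q2 r2
      · -- apex r : pairs (p,r), (q,r) steep, (p,q) strictly flat
        by_cases g13 : A p2 r2 ≤ A p1 r1
        · exact two_twoR hM hNM h312 (by omega) (by omega) (by omega)
        · by_cases g23 : A q2 r2 ≤ A q1 r1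
          · exact two_twoR hM hNM h321 (by omega) (by omega) (by omega)
          · exact two_steepR hM hNM h132 (by omega) (by omega)
      · exact one_steepR hM hNM h132 (by omega) (by omega) (by omega)
    · by_cases s23 : A q1 r1 ≤ A q2 r2
      · exact one_steepR hM hNM h231 (by omega) (by omega) (by omega)
      · exact not_all_flatR hM hNM h (by omega) (by omega) (by omega)

end Pool.Agent.MdimSq
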