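import Mathlib

/-!
Definitions for the multiset dimension of the strong product of two paths.
-/

namespace Pool.Agent.MdimSq

/-- The strong product of two simple graphs: distinct pairs are adjacent when each pair of
coordinates is equal or adjacent. -/
def strongProd {α β : Type} (G : SimpleGraph α) (H : SimpleGraph β) : SimpleGraph (α × β) where
  Adj p q := p ≠ q ∧ (p.1 = q.1 ∨ G.Adj p.1 q.1) ∧ (p.2 = q.2 ∨ H.Adj p.2 q.2)
  symm := ⟨fun _ _ h => ⟨h.1.symm, h.2.1.imp Eq.symm (fun h => h.symm),
    h.2.2.imp Eq.symm (fun h => h.symm)⟩⟩
  loopless := ⟨fun _ h => h.1 rfl⟩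

/-- The multiset representation of `v` with respect to `W`: the multiset of the distances from
`v` to the elements of `W`. -/
noncomputable def msRep {V : Type} (G : SimpleGraph V) (W : Finset V) (v : V) : Multiset ℕ :=
  W.val.map (fun w => G.dist v w)

/-- `W` is a multiset resolving set: distinct vertices have distinct representations. -/
def IsMSResolving {V : Type} (G : SimpleGraph V) (W : Finset V) : Prop :=
  ∀ u v : V, u ≠ v → msRep G W u ≠ msRep G W v

/-- The multiset dimension: the least size of a multiset resolving set, and infinity when there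
is none. -/
noncomputable def mdim {V : Type} (G : SimpleGraph V) : ℕ∞ :=
  sInf {k : ℕ∞ | ∃ W : Finset V, IsMSResolving G W ∧ k = (W.card : ℕ∞)}

end Pool.Agent.MdimSq
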