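import Pool.Agent.MdimSq.Defs

namespace Pool.Agent.MdimSq

/-- absolute difference of two natural numbers -/
def ad (a b : ℕ) : ℕ := (a - b) + (b - a)

abbrev PP (n m : ℕ) := strongProd (SimpleGraph.pathGraph n) (SimpleGraph.pathGraph m)

lemma adj_iff {n m : ℕ} (u v : Fin n × Fin m) : (PP n m).Adj u v ↔
    u ≠ v ∧ ad u.1.val v.1.val ≤ 1 ∧ ad u.2.val v.2.val ≤ 1 := by
  simp only [PP, strongProd, SimpleGraph.pathGraph_adj, Fin.ext_iff, ad]
  constructor
  · rintro ⟨h1, h2, h3⟩
    refine ⟨h1, ?_, ?_⟩ <;> omega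
  · rintro ⟨h1, h2, h3⟩
    refine ⟨h1, ?_, ?_⟩ <;> omega

lemma le_len {n m : ℕ} (u v : Fin n × Fin m) (w : (PP n m).Walk u v) :
    max (ad u.1.val v.1.val) (ad u.2.val v.2.val) ≤ w.length := by
  induction w with
  | nil => simp [ad]
  | cons h w ih =>
    rw [SimpleGraph.Walk.length_cons]
    rw [adj_iff] at h
    obtain ⟨-, h2, h3⟩ := h
    simp only [ad] at *
    omega

/-- one coordinate step towards a target -/
lemma step_exists {n : ℕ} (a b : Fin n) : ∃ c : Fin n, ad a.val c.val ≤ 1 ∧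
    ad c.val b.val = ad a.val b.val - 1 ∧ (a.val ≠ b.val → c.val ≠ a.val) := by
  rcases lt_trichotomy a.val b.val with h | h | h
  · refine ⟨⟨a.val + 1, by omega⟩, ?_, ?_, ?_⟩ <;> (try simp only [ad]) <;> omega
  · refine ⟨a, ?_, ?_, ?_⟩ <;> (try simp only [ad]) <;> omega
  · refine ⟨⟨a.val - 1, by omega⟩, ?_, ?_, ?_⟩ <;> (try simp only [ad]) <;> omega

lemma walk_exists {n m : ℕ} (d : ℕ) : ∀ (u v : Fin n × Fin m),
    max (ad u.1.val v.1.val) (ad u.2.val v.2.val) = d → ∃ w : (PP n m).Walk u v, w.length = d := by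
  induction d with
  | zero =>
    intro u v h
    have : u = v := by
      apply Prod.ext <;> apply Fin.ext <;> simp only [ad] at h <;> omega
    subst this
    exact ⟨SimpleGraph.Walk.nil, rfl⟩
  | succ d ih =>
    intro u v h
    obtain ⟨c1, h1, h2, h3⟩ := step_exists u.1 v.1
    obtain ⟨c2, k1, k2, k3⟩ := step_exists u.2 v.2
    have hadj : (PP n m).Adj u (c1, c2) := by
      rw [adj_iff]
      refine ⟨?_, h1, k1⟩
      intro he
      have e1 : u.1.val = c1.val := by rw [he]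
      have e2 : u.2.val = c2.val := by rw [he]
      simp only [ad] at *
      omega
    obtain ⟨w, hw⟩ := ih (c1, c2) v (by simp only at *; omega)
    exact ⟨SimpleGraph.Walk.cons hadj w, by rw [SimpleGraph.Walk.length_cons, hw]⟩

lemma dist_eq {n m : ℕ} (u v : Fin n × Fin m) :
    (PP n m).dist u v = max (ad u.1.val v.1.val) (ad u.2.val v.2.val) := by
  obtain ⟨w, hw⟩ := walk_exists _ u v rfl
  apply le_antisymm
  · rw [← hw]; exact SimpleGraph.dist_le w
  · obtain ⟨w', hw'⟩ := (SimpleGraph.Reachable.exists_walk_length_eq_dist ⟨w⟩)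
    rw [← hw']; exact le_len u v w'

end Pool.Agent.MdimSq
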