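import Mathlib

namespace Pool.Agent.MdimSq

/-- the four distances in the even family, by regions -/
def EvenReg (k x y a b c d : ℕ) : Prop :=
  (y ≤ x ∧ 2 * k ≤ x + y ∧ x ≤ 2 * k ∧ a = x ∧ b = x ∧ c = x ∧ d = y) ∨
  (y ≤ x ∧ x + y < 2 * k ∧ 1 ≤ x ∧ a = x ∧ b = x ∧ c + y = 2 * k ∧ d + x = 2 * k) ∨
  (x = 0 ∧ y = 0 ∧ a = 0 ∧ b = 1 ∧ c = 2 * k ∧ d = 2 * k) ∨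
  (x < y ∧ 2 * k ≤ x + y ∧ y ≤ 2 * k ∧ a = y ∧ b + 1 = y ∧ c = x ∧ d = y) ∨
  (x < y ∧ x + y < 2 * k ∧ a = y ∧ b + 1 = y ∧ c + y = 2 * k ∧ d + x = 2 * k)

lemma evenFam_core {k x y x' y' : ℕ} (hk : 2 ≤ k)
    (a b c d a' b' c' d' : ℕ) (hu : EvenReg k x y a b c d) (hv : EvenReg k x' y' a' b' c' d')
    (h : (a = a' ∧ ((b = b' ∧ ((c = c' ∧ d = d') ∨ (c = d' ∧ d = c'))) ∨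
      (b = c' ∧ ((c = b' ∧ d = d') ∨ (c = d' ∧ d = b'))) ∨
      (b = d' ∧ ((c = b' ∧ d = c') ∨ (c = c' ∧ d = b'))))) ∨
    (a = b' ∧ ((b = a' ∧ ((c = c' ∧ d = d') ∨ (c = d' ∧ d = c'))) ∨
      (b = c' ∧ ((c = a' ∧ d = d') ∨ (c = d' ∧ d = a'))) ∨
      (b = d' ∧ ((c = a' ∧ d = c') ∨ (c = c' ∧ d = a'))))) ∨
    (a = c' ∧ ((b = a' ∧ ((c = b' ∧ d = d') ∨ (c = d' ∧ d = b'))) ∨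
      (b = b' ∧ ((c = a' ∧ d = d') ∨ (c = d' ∧ d = a'))) ∨
      (b = d' ∧ ((c = a' ∧ d = b') ∨ (c = b' ∧ d = a'))))) ∨
    (a = d' ∧ ((b = a' ∧ ((c = b' ∧ d = c') ∨ (c = c' ∧ d = b'))) ∨
      (b = b' ∧ ((c = a' ∧ d = c') ∨ (c = c' ∧ d = a'))) ∨
      (b = c' ∧ ((c = a' ∧ d = b') ∨ (c = b' ∧ d = a')))))) : x = x' ∧ y = y' := by
  unfold EvenReg at hu hv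
  rcases h with ⟨h1, ⟨h2, ⟨h3, h4⟩ | ⟨h3, h4⟩⟩ | ⟨h2, ⟨h3, h4⟩ | ⟨h3, h4⟩⟩ | ⟨h2, ⟨h3, h4⟩ | ⟨h3, h4⟩⟩⟩ |
      ⟨h1, ⟨h2, ⟨h3, h4⟩ | ⟨h3, h4⟩⟩ | ⟨h2, ⟨h3, h4⟩ | ⟨h3, h4⟩⟩ | ⟨h2, ⟨h3, h4⟩ | ⟨h3, h4⟩⟩⟩ |
      ⟨h1, ⟨h2, ⟨h3, h4⟩ | ⟨h3, h4⟩⟩ | ⟨h2, ⟨h3, h4⟩ | ⟨h3, h4⟩⟩ | ⟨h2, ⟨h3, h4⟩ | ⟨h3, h4⟩⟩⟩ |
      ⟨h1, ⟨h2, ⟨h3, h4⟩ | ⟨h3, h4⟩⟩ | ⟨h2, ⟨h3, h4⟩ | ⟨h3, h4⟩⟩ | ⟨h2, ⟨h3, h4⟩ | ⟨h3, h4⟩⟩⟩ <;>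
  subst h1 h2 h3 h4 <;>
  rcases hu with ⟨e1, e2, e3, e4, e5, e6, e7⟩ | ⟨e1, e2, e3, e4, e5, e6, e7⟩ |
    ⟨e1, e2, e4, e5, e6, e7⟩ | ⟨e1, e2, e3, e4, e5, e6, e7⟩ | ⟨e1, e2, e4, e5, e6, e7⟩ <;>
  rcases hv with ⟨f1, f2, f3, f4, f5, f6, f7⟩ | ⟨f1, f2, f3, f4, f5, f6, f7⟩ |
    ⟨f1, f2, f4, f5, f6, f7⟩ | ⟨f1, f2, f3, f4, f5, f6, f7⟩ | ⟨f1, f2, f4, f5, f6, f7⟩ <;>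
  omega

end Pool.Agent.MdimSq
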