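import Pool.Agent.MdimSq.RegER

namespace Pool.Agent.MdimSq

lemma er_0 {k x y x' y' : ℕ} (hk : 2 ≤ k)
    (a b c d a' b' c' d' : ℕ) (hu : RegER k x y a b c d) (hv : RegER k x' y' a' b' c' d')
    (h1 : a = a') (h : ((b = b' ∧ ((c = c' ∧ d = d') ∨ (c = d' ∧ d = c'))) ∨
      (b = c' ∧ ((c = b' ∧ d = d') ∨ (c = d' ∧ d = b'))) ∨
      (b = d' ∧ ((c = b' ∧ d = c') ∨ (c = c' ∧ d = b'))))) : x = x' ∧ y = y' := by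
  unfold RegER at hu hv
  rcases h with ⟨h2, ⟨h3, h4⟩ | ⟨h3, h4⟩⟩ | ⟨h2, ⟨h3, h4⟩ | ⟨h3, h4⟩⟩ | ⟨h2, ⟨h3, h4⟩ | ⟨h3, h4⟩⟩ <;>
  subst h1 h2 h3 h4 <;>
  rcases hu with ⟨e1, e4, e5, e6, e7⟩ |
    ⟨e1, e4, e5, e6, e7⟩ |
    ⟨e1, e4, e5, e6, e7⟩ |
    ⟨e1, e4, e5, e6, e7⟩ |
    ⟨e1, e4, e5, e6, e7⟩ |
    ⟨e1, e4, e5, e6, e7⟩ |
    ⟨e1, e4, e5, e6, e7⟩ |
    ⟨e1, e4, e5, e6, e7⟩ <;>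
  rcases hv with ⟨f1, f4, f5, f6, f7⟩ |
    ⟨f1, f4, f5, f6, f7⟩ |
    ⟨f1, f4, f5, f6, f7⟩ |
    ⟨f1, f4, f5, f6, f7⟩ |
    ⟨f1, f4, f5, f6, f7⟩ |
    ⟨f1, f4, f5, f6, f7⟩ |
    ⟨f1, f4, f5, f6, f7⟩ |
    ⟨f1, f4, f5, f6, f7⟩ <;>
  omega

lemma er_1 {k x y x' y' : ℕ} (hk : 2 ≤ k)
    (a b c d a' b' c' d' : ℕ) (hu : RegER k x y a b c d) (hv : RegER k x' y' a' b' c' d')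
    (h1 : a = b') (h : ((b = a' ∧ ((c = c' ∧ d = d') ∨ (c = d' ∧ d = c'))) ∨
      (b = c' ∧ ((c = a' ∧ d = d') ∨ (c = d' ∧ d = a'))) ∨
      (b = d' ∧ ((c = a' ∧ d = c') ∨ (c = c' ∧ d = a'))))) : x = x' ∧ y = y' := by
  unfold RegER at hu hv
  rcases h with ⟨h2, ⟨h3, h4⟩ | ⟨h3, h4⟩⟩ | ⟨h2, ⟨h3, h4⟩ | ⟨h3, h4⟩⟩ | ⟨h2, ⟨h3, h4⟩ | ⟨h3, h4⟩⟩ <;>
  subst h1 h2 h3 h4 <;>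
  rcases hu with ⟨e1, e4, e5, e6, e7⟩ |
    ⟨e1, e4, e5, e6, e7⟩ |
    ⟨e1, e4, e5, e6, e7⟩ |
    ⟨e1, e4, e5, e6, e7⟩ |
    ⟨e1, e4, e5, e6, e7⟩ |
    ⟨e1, e4, e5, e6, e7⟩ |
    ⟨e1, e4, e5, e6, e7⟩ |
    ⟨e1, e4, e5, e6, e7⟩ <;>
  rcases hv with ⟨f1, f4, f5, f6, f7⟩ |
    ⟨f1, f4, f5, f6, f7⟩ |
    ⟨f1, f4, f5, f6, f7⟩ |
    ⟨f1, f4, f5, f6, f7⟩ |
    ⟨f1, f4, f5, f6, f7⟩ |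
    ⟨f1, f4, f5, f6, f7⟩ |
    ⟨f1, f4, f5, f6, f7⟩ |
    ⟨f1, f4, f5, f6, f7⟩ <;>
  omega

lemma er_2 {k x y x' y' : ℕ} (hk : 2 ≤ k)
    (a b c d a' b' c' d' : ℕ) (hu : RegER k x y a b c d) (hv : RegER k x' y' a' b' c' d')
    (h1 : a = c') (h : ((b = a' ∧ ((c = b' ∧ d = d') ∨ (c = d' ∧ d = b'))) ∨
      (b = b' ∧ ((c = a' ∧ d = d') ∨ (c = d' ∧ d = a'))) ∨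
      (b = d' ∧ ((c = a' ∧ d = b') ∨ (c = b' ∧ d = a'))))) : x = x' ∧ y = y' := by
  unfold RegER at hu hv
  rcases h with ⟨h2, ⟨h3, h4⟩ | ⟨h3, h4⟩⟩ | ⟨h2, ⟨h3, h4⟩ | ⟨h3, h4⟩⟩ | ⟨h2, ⟨h3, h4⟩ | ⟨h3, h4⟩⟩ <;>
  subst h1 h2 h3 h4 <;>
  rcases hu with ⟨e1, e4, e5, e6, e7⟩ |
    ⟨e1, e4, e5, e6, e7⟩ |
    ⟨e1, e4, e5, e6, e7⟩ |
    ⟨e1, e4, e5, e6, e7⟩ |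
    ⟨e1, e4, e5, e6, e7⟩ |
    ⟨e1, e4, e5, e6, e7⟩ |
    ⟨e1, e4, e5, e6, e7⟩ |
    ⟨e1, e4, e5, e6, e7⟩ <;>
  rcases hv with ⟨f1, f4, f5, f6, f7⟩ |
    ⟨f1, f4, f5, f6, f7⟩ |
    ⟨f1, f4, f5, f6, f7⟩ |
    ⟨f1, f4, f5, f6, f7⟩ |
    ⟨f1, f4, f5, f6, f7⟩ |
    ⟨f1, f4, f5, f6, f7⟩ |
    ⟨f1, f4, f5, f6, f7⟩ |
    ⟨f1, f4, f5, f6, f7⟩ <;>
  omega

lemma er_3 {k x y x' y' : ℕ} (hk : 2 ≤ k)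
    (a b c d a' b' c' d' : ℕ) (hu : RegER k x y a b c d) (hv : RegER k x' y' a' b' c' d')
    (h1 : a = d') (h : ((b = a' ∧ ((c = b' ∧ d = c') ∨ (c = c' ∧ d = b'))) ∨
      (b = b' ∧ ((c = a' ∧ d = c') ∨ (c = c' ∧ d = a'))) ∨
      (b = c' ∧ ((c = a' ∧ d = b') ∨ (c = b' ∧ d = a'))))) : x = x' ∧ y = y' := by
  unfold RegER at hu hv
  rcases h with ⟨h2, ⟨h3, h4⟩ | ⟨h3, h4⟩⟩ | ⟨h2, ⟨h3, h4⟩ | ⟨h3, h4⟩⟩ | ⟨h2, ⟨h3, h4⟩ | ⟨h3, h4⟩⟩ <;>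
  subst h1 h2 h3 h4 <;>
  rcases hu with ⟨e1, e4, e5, e6, e7⟩ |
    ⟨e1, e4, e5, e6, e7⟩ |
    ⟨e1, e4, e5, e6, e7⟩ |
    ⟨e1, e4, e5, e6, e7⟩ |
    ⟨e1, e4, e5, e6, e7⟩ |
    ⟨e1, e4, e5, e6, e7⟩ |
    ⟨e1, e4, e5, e6, e7⟩ |
    ⟨e1, e4, e5, e6, e7⟩ <;>
  rcases hv with ⟨f1, f4, f5, f6, f7⟩ |
    ⟨f1, f4, f5, f6, f7⟩ |
    ⟨f1, f4, f5, f6, f7⟩ |
    ⟨f1, f4, f5, f6, f7⟩ |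
    ⟨f1, f4, f5, f6, f7⟩ |
    ⟨f1, f4, f5, f6, f7⟩ |
    ⟨f1, f4, f5, f6, f7⟩ |
    ⟨f1, f4, f5, f6, f7⟩ <;>
  omega

end Pool.Agent.MdimSq
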