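import Mathlib

namespace Pool.Agent.MdimSq

/-- the four distances in the odd family, by regions; the side is `2 k + 1` -/
def OddReg (k x y a b c d : ℕ) : Prop :=
  (x ≤ y ∧ x + y ≤ 2 * k ∧ (x = 0 → y < 2 * k) ∧ a = y ∧ b + y = 2 * k ∧ c + y = 2 * k ∧
    d + x = 2 * k + 1) ∨
  (y < x ∧ x + y ≤ 2 * k ∧ True ∧ a = x ∧ b + y = 2 * k ∧ c + y = 2 * k ∧ d + y = 2 * k + 1) ∨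
  (x ≤ y ∧ 2 * k + 1 ≤ x + y ∧ (y ≤ 2 * k ∨ (y = 2 * k + 1 ∧ 2 ≤ x)) ∧ a = y ∧ b = x ∧
    c + 1 = x ∧ d + x = 2 * k + 1) ∨
  (y < x ∧ 2 * k + 1 ≤ x + y ∧ x ≤ 2 * k + 1 ∧ a = x ∧ b = x ∧ c + 1 = x ∧ d + y = 2 * k + 1) ∨
  (x = 0 ∧ y = 2 * k ∧ True ∧ a = 2 * k ∧ b = 0 ∧ c = 1 ∧ d = 2 * k + 1) ∨
  (x = 0 ∧ y = 2 * k + 1 ∧ True ∧ a = 2 * k + 1 ∧ b = 1 ∧ c = 1 ∧ d = 2 * k + 1) ∨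
  (x = 1 ∧ y = 2 * k + 1 ∧ True ∧ a = 2 * k + 1 ∧ b = 1 ∧ c = 1 ∧ d = 2 * k)

lemma oddFam_core {k x y x' y' : ℕ} (hk : 2 ≤ k)
    (a b c d a' b' c' d' : ℕ) (hu : OddReg k x y a b c d) (hv : OddReg k x' y' a' b' c' d')
    (h : (a = a' ∧ ((b = b' ∧ ((c = c' ∧ d = d') ∨ (c = d' ∧ d = c'))) ∨
      (b = c' ∧ ((c = b' ∧ d = d') ∨ (c = d' ∧ d = b'))) ∨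
      (b = d' ∧ ((c = b' ∧ d = c') ∨ (c = c' ∧ d = b'))))) ∨
    (a = b' ∧ ((b = a' ∧ ((c = c' ∧ d = d') ∨ (c = d' ∧ d = c'))) ∨
      (b = c' ∧ ((c = a' ∧ d = d') ∨ (c = d' ∧ d = a'))) ∨
      (b = d' ∧ ((c = a' ∧ d = c') ∨ (c = c' ∧ d = a'))))) ∨
    (a = c' ∧ ((b = a' ∧ ((c = b' ∧ d = d') ∨ (c = d' ∧ d = b'))) ∨
      (b = b' ∧ ((c = a' ∧ d = d') ∨ (c = d' ∧ d = a'))) ∨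
      (b = d' ∧ ((c = a' ∧ d = b') ∨ (c = b' ∧ d = a'))))) ∨
    (a = d' ∧ ((b = a' ∧ ((c = b' ∧ d = c') ∨ (c = c' ∧ d = b'))) ∨
      (b = b' ∧ ((c = a' ∧ d = c') ∨ (c = c' ∧ d = a'))) ∨
      (b = c' ∧ ((c = a' ∧ d = b') ∨ (c = b' ∧ d = a')))))) : x = x' ∧ y = y' := by
  unfold OddReg at hu hv
  rcases h with ⟨h1, ⟨h2, ⟨h3, h4⟩ | ⟨h3, h4⟩⟩ | ⟨h2, ⟨h3, h4⟩ | ⟨h3, h4⟩⟩ | ⟨h2, ⟨h3, h4⟩ | ⟨h3, h4⟩⟩⟩ |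
      ⟨h1, ⟨h2, ⟨h3, h4⟩ | ⟨h3, h4⟩⟩ | ⟨h2, ⟨h3, h4⟩ | ⟨h3, h4⟩⟩ | ⟨h2, ⟨h3, h4⟩ | ⟨h3, h4⟩⟩⟩ |
      ⟨h1, ⟨h2, ⟨h3, h4⟩ | ⟨h3, h4⟩⟩ | ⟨h2, ⟨h3, h4⟩ | ⟨h3, h4⟩⟩ | ⟨h2, ⟨h3, h4⟩ | ⟨h3, h4⟩⟩⟩ |
      ⟨h1, ⟨h2, ⟨h3, h4⟩ | ⟨h3, h4⟩⟩ | ⟨h2, ⟨h3, h4⟩ | ⟨h3, h4⟩⟩ | ⟨h2, ⟨h3, h4⟩ | ⟨h3, h4⟩⟩⟩ <;>
  subst h1 h2 h3 h4 <;>
  rcases hu with ⟨e1, e2, e3, e4, e5, e6, e7⟩ | ⟨e1, e2, e3, e4, e5, e6, e7⟩ |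
    ⟨e1, e2, e3, e4, e5, e6, e7⟩ | ⟨e1, e2, e3, e4, e5, e6, e7⟩ | ⟨e1, e2, e3, e4, e5, e6, e7⟩ |
    ⟨e1, e2, e3, e4, e5, e6, e7⟩ | ⟨e1, e2, e3, e4, e5, e6, e7⟩ <;>
  rcases hv with ⟨f1, f2, f3, f4, f5, f6, f7⟩ | ⟨f1, f2, f3, f4, f5, f6, f7⟩ |
    ⟨f1, f2, f3, f4, f5, f6, f7⟩ | ⟨f1, f2, f3, f4, f5, f6, f7⟩ | ⟨f1, f2, f3, f4, f5, f6, f7⟩ |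
    ⟨f1, f2, f3, f4, f5, f6, f7⟩ | ⟨f1, f2, f3, f4, f5, f6, f7⟩ <;>
  omega

end Pool.Agent.MdimSq
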