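import Pool.Agent.MdimSq.Core3
import Pool.Agent.MdimSq.Dist

namespace Pool.Agent.MdimSq

lemma D_cast (a b c d : ℕ) : D (a : ℤ) b c d = ((max (ad a c) (ad b d) : ℕ) : ℤ) := by
  simp only [D, A, ad]; omega

lemma val3 {α : Type} [DecidableEq α] {x y z : α} (h1 : x ≠ y) (h2 : x ≠ z) (h3 : y ≠ z) :
    ({x, y, z} : Finset α).val = x ::ₘ y ::ₘ {z} := by
  rw [Finset.insert_val_of_notMem, Finset.insert_val_of_notMem, Finset.singleton_val]
  · simpa using h3
  · simp only [Finset.mem_insert, Finset.mem_singleton, not_or]; exact ⟨h1, h2⟩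

lemma no_three {n : ℕ} (hn : 4 ≤ n) (p q r : Fin n × Fin n) (h1 : p ≠ q) (h2 : p ≠ r)
    (h3 : q ≠ r) (h : IsMSResolving (PP n n) {p, q, r}) : False := by
  have ext : ∀ x y : Fin n × Fin n, x ≠ y → (x.1.val : ℤ) ≠ y.1.val ∨ (x.2.val : ℤ) ≠ y.2.val := by
    intro x y hxy
    by_contra hc
    push Not at hc
    apply hxy
    apply Prod.ext <;> apply Fin.ext <;> omega
  have key : NoColl ((n : ℤ) - 1) p.1.val p.2.val q.1.val q.2.val r.1.val r.2.val := by
    intro a b c d ha ha' hb hb' hc hc' hd hd' hne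
    lift a to ℕ using ha
    lift b to ℕ using hb
    lift c to ℕ using hc
    lift d to ℕ using hd
    have hA : a < n := by omega
    have hB : b < n := by omega
    have hC : c < n := by omega
    have hD : d < n := by omega
    let u : Fin n × Fin n := (⟨a, hA⟩, ⟨b, hB⟩)
    let v : Fin n × Fin n := (⟨c, hC⟩, ⟨d, hD⟩)
    have huv : u ≠ v := by
      intro he
      have e1 : u.1.val = v.1.val := by rw [he]
      have e2 : u.2.val = v.2.val := by rw [he]
      simp only [u, v] at e1 e2
      omega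
    have hh := h u v huv
    have hu : ∀ w : Fin n × Fin n, D (a : ℤ) b w.1.val w.2.val = (((PP n n).dist u w : ℕ) : ℤ) := by
      intro w; rw [D_cast, dist_eq]
    have hv : ∀ w : Fin n × Fin n, D (c : ℤ) d w.1.val w.2.val = (((PP n n).dist v w : ℕ) : ℤ) := by
      intro w; rw [D_cast, dist_eq]
    simp only [hu, hv, Nat.cast_inj]
    unfold msRep at hh
    rw [val3 h1 h2 h3] at hh
    simp only [Multiset.map_cons, Multiset.map_singleton] at hh
    refine ⟨?_, ?_, ?_, ?_⟩
    · rintro ⟨x, y, z⟩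
      apply hh; rw [x, y, z]
    · rintro ⟨x, y, z⟩
      apply hh; rw [x, y, z]; exact Multiset.cons_swap _ _ _
    · rintro ⟨x, y, z⟩
      apply hh; rw [x, y, z]
      rw [Multiset.cons_swap]
      rw [show ((PP n n).dist v r ::ₘ {(PP n n).dist v p} : Multiset ℕ) =
        (PP n n).dist v p ::ₘ {(PP n n).dist v r} from Multiset.cons_swap _ _ 0]
      exact Multiset.cons_swap _ _ _
    · rintro ⟨x, y, z⟩
      apply hh; rw [x, y, z]
      rw [show ((PP n n).dist v r ::ₘ {(PP n n).dist v q} : Multiset ℕ) =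
        (PP n n).dist v q ::ₘ {(PP n n).dist v r} from Multiset.cons_swap _ _ 0]
  refine not_bad (N := (n : ℤ) - 1) (by omega) ⟨key, ⟨?_, ?_, ?_⟩, ext p q h1, ext p r h2, ext q r h3⟩
  · have := p.1.isLt; have := p.2.isLt; omega
  · have := q.1.isLt; have := q.2.isLt; omega
  · have := r.1.isLt; have := r.2.isLt; omega

lemma four_le {n : ℕ} (hn : 4 ≤ n) (W : Finset (Fin n × Fin n))
    (h : IsMSResolving (PP n n) W) : 4 ≤ W.card := by
  by_contra hc
  have hcases : W.card = 0 ∨ W.card = 1 ∨ W.card = 2 ∨ W.card = 3 := by omega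
  rcases hcases with h0 | h1 | h2 | h3
  · rw [Finset.card_eq_zero] at h0
    subst h0
    refine h (⟨0, by omega⟩, ⟨0, by omega⟩) (⟨0, by omega⟩, ⟨1, by omega⟩) ?_ ?_
    · simp [Prod.ext_iff, Fin.ext_iff]
    · simp [msRep]
  · rw [Finset.card_eq_one] at h1
    obtain ⟨w, rfl⟩ := h1
    have hw1 := w.1.isLt
    have hw2 := w.2.isLt
    obtain ⟨a, ha, ha'⟩ : ∃ a : ℕ, a < n ∧ ad a w.1.val = 1 := by
      by_cases hz : w.1.val = 0
      · exact ⟨w.1.val + 1, by omega, by simp only [ad]; omega⟩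
      · exact ⟨w.1.val - 1, by omega, by simp only [ad]; omega⟩
    obtain ⟨b, hb, hb'⟩ : ∃ b : ℕ, b < n ∧ ad b w.2.val = 1 := by
      by_cases hz : w.2.val = 0
      · exact ⟨w.2.val + 1, by omega, by simp only [ad]; omega⟩
      · exact ⟨w.2.val - 1, by omega, by simp only [ad]; omega⟩
    refine h (⟨a, ha⟩, w.2) (w.1, ⟨b, hb⟩) ?_ ?_
    · intro he
      have e1 : a = w.1.val := by
        have := congrArg (fun x => (x.1 : Fin n).val) he
        simpa using this
      simp only [ad] at ha'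
      omega
    · simp only [msRep, Finset.singleton_val, Multiset.map_singleton, dist_eq]
      rw [ha', hb']
      simp [ad]
  · rw [Finset.card_eq_two] at h2
    obtain ⟨p, q, hpq, rfl⟩ := h2
    refine h p q hpq ?_
    unfold msRep
    rw [Finset.insert_val_of_notMem (by simpa using hpq), Finset.singleton_val]
    simp only [Multiset.map_cons, Multiset.map_singleton, SimpleGraph.dist_self]
    rw [SimpleGraph.dist_comm]
    exact Multiset.cons_swap _ _ 0
  · rw [Finset.card_eq_three] at h3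
    obtain ⟨p, q, r, h1, h2, h3, rfl⟩ := h3
    exact no_three hn p q r h1 h2 h3 h

end Pool.Agent.MdimSq
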