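import Mathlib

namespace Pool.Agent.MdimSq

lemma ms2 {a b a' b' : ℕ} (h : a ::ₘ {b} = (a' ::ₘ {b'} : Multiset ℕ)) :
    (a = a' ∧ b = b') ∨ (a = b' ∧ b = a') := by
  have ha : a ∈ (a' ::ₘ {b'} : Multiset ℕ) := by rw [← h]; exact Multiset.mem_cons_self _ _
  simp only [Multiset.mem_cons, Multiset.mem_singleton] at ha
  rcases ha with rfl | rfl
  · left; refine ⟨rfl, ?_⟩
    have := (Multiset.cons_inj_right _).1 h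
    simpa using this
  · right; refine ⟨rfl, ?_⟩
    have h2 : a ::ₘ {b} = (a ::ₘ {a'} : Multiset ℕ) := by
      rw [h]; exact Multiset.cons_swap _ _ 0
    have := (Multiset.cons_inj_right _).1 h2
    simpa using this

lemma ms3 {a b c a' b' c' : ℕ} (h : a ::ₘ b ::ₘ {c} = (a' ::ₘ b' ::ₘ {c'} : Multiset ℕ)) :
    (a = a' ∧ b ::ₘ {c} = (b' ::ₘ {c'} : Multiset ℕ)) ∨
    (a = b' ∧ b ::ₘ {c} = (a' ::ₘ {c'} : Multiset ℕ)) ∨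
    (a = c' ∧ b ::ₘ {c} = (a' ::ₘ {b'} : Multiset ℕ)) := by
  have ha : a ∈ (a' ::ₘ b' ::ₘ {c'} : Multiset ℕ) := by rw [← h]; exact Multiset.mem_cons_self _ _
  simp only [Multiset.mem_cons, Multiset.mem_singleton] at ha
  rcases ha with rfl | rfl | rfl
  · exact Or.inl ⟨rfl, (Multiset.cons_inj_right _).1 h⟩
  · right; left; refine ⟨rfl, ?_⟩
    have h2 : a ::ₘ b ::ₘ {c} = (a ::ₘ a' ::ₘ {c'} : Multiset ℕ) := by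
      rw [h]; exact Multiset.cons_swap _ _ _
    exact (Multiset.cons_inj_right _).1 h2
  · right; right; refine ⟨rfl, ?_⟩
    have h2 : a ::ₘ b ::ₘ {c} = (a ::ₘ a' ::ₘ {b'} : Multiset ℕ) := by
      rw [h]
      rw [show (b' ::ₘ {a} : Multiset ℕ) = a ::ₘ {b'} from Multiset.cons_swap _ _ 0]
      exact Multiset.cons_swap _ _ _
    exact (Multiset.cons_inj_right _).1 h2

lemma ms4 {a b c d a' b' c' d' : ℕ}
    (h : a ::ₘ b ::ₘ c ::ₘ {d} = (a' ::ₘ b' ::ₘ c' ::ₘ {d'} : Multiset ℕ)) :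
    (a = a' ∧ b ::ₘ c ::ₘ {d} = (b' ::ₘ c' ::ₘ {d'} : Multiset ℕ)) ∨
    (a = b' ∧ b ::ₘ c ::ₘ {d} = (a' ::ₘ c' ::ₘ {d'} : Multiset ℕ)) ∨
    (a = c' ∧ b ::ₘ c ::ₘ {d} = (a' ::ₘ b' ::ₘ {d'} : Multiset ℕ)) ∨
    (a = d' ∧ b ::ₘ c ::ₘ {d} = (a' ::ₘ b' ::ₘ {c'} : Multiset ℕ)) := by
  have ha : a ∈ (a' ::ₘ b' ::ₘ c' ::ₘ {d'} : Multiset ℕ) := by
    rw [← h]; exact Multiset.mem_cons_self _ _
  simp only [Multiset.mem_cons, Multiset.mem_singleton] at ha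
  rcases ha with rfl | rfl | rfl | rfl
  · exact Or.inl ⟨rfl, (Multiset.cons_inj_right _).1 h⟩
  · right; left; refine ⟨rfl, ?_⟩
    have h2 : a ::ₘ b ::ₘ c ::ₘ {d} = (a ::ₘ a' ::ₘ c' ::ₘ {d'} : Multiset ℕ) := by
      rw [h]; exact Multiset.cons_swap _ _ _
    exact (Multiset.cons_inj_right _).1 h2
  · right; right; left; refine ⟨rfl, ?_⟩
    have h2 : a ::ₘ b ::ₘ c ::ₘ {d} = (a ::ₘ a' ::ₘ b' ::ₘ {d'} : Multiset ℕ) := by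
      rw [h, Multiset.cons_swap b' a, Multiset.cons_swap a' a]
    exact (Multiset.cons_inj_right _).1 h2
  · right; right; right; refine ⟨rfl, ?_⟩
    have h2 : a ::ₘ b ::ₘ c ::ₘ {d} = (a ::ₘ a' ::ₘ b' ::ₘ {c'} : Multiset ℕ) := by
      rw [h]
      rw [show (c' ::ₘ {a} : Multiset ℕ) = a ::ₘ {c'} from Multiset.cons_swap _ _ 0]
      rw [Multiset.cons_swap b' a, Multiset.cons_swap a' a]
    exact (Multiset.cons_inj_right _).1 h2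

/-- all 24 matchings of two equal four-element multisets -/
lemma ms24 {a b c d a' b' c' d' : ℕ}
    (h : a ::ₘ b ::ₘ c ::ₘ {d} = (a' ::ₘ b' ::ₘ c' ::ₘ {d'} : Multiset ℕ)) :
    (a = a' ∧ ((b = b' ∧ ((c = c' ∧ d = d') ∨ (c = d' ∧ d = c'))) ∨
      (b = c' ∧ ((c = b' ∧ d = d') ∨ (c = d' ∧ d = b'))) ∨
      (b = d' ∧ ((c = b' ∧ d = c') ∨ (c = c' ∧ d = b'))))) ∨
    (a = b' ∧ ((b = a' ∧ ((c = c' ∧ d = d') ∨ (c = d' ∧ d = c'))) ∨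
      (b = c' ∧ ((c = a' ∧ d = d') ∨ (c = d' ∧ d = a'))) ∨
      (b = d' ∧ ((c = a' ∧ d = c') ∨ (c = c' ∧ d = a'))))) ∨
    (a = c' ∧ ((b = a' ∧ ((c = b' ∧ d = d') ∨ (c = d' ∧ d = b'))) ∨
      (b = b' ∧ ((c = a' ∧ d = d') ∨ (c = d' ∧ d = a'))) ∨
      (b = d' ∧ ((c = a' ∧ d = b') ∨ (c = b' ∧ d = a'))))) ∨
    (a = d' ∧ ((b = a' ∧ ((c = b' ∧ d = c') ∨ (c = c' ∧ d = b'))) ∨
      (b = b' ∧ ((c = a' ∧ d = c') ∨ (c = c' ∧ d = a'))) ∨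
      (b = c' ∧ ((c = a' ∧ d = b') ∨ (c = b' ∧ d = a'))))) := by
  rcases ms4 h with ⟨h1, h⟩ | ⟨h1, h⟩ | ⟨h1, h⟩ | ⟨h1, h⟩ <;>
    rcases ms3 h with ⟨h2, h⟩ | ⟨h2, h⟩ | ⟨h2, h⟩ <;>
    rcases ms2 h with ⟨h3, h⟩ | ⟨h3, h⟩ <;> simp only [h1, h2, h3, h, true_and, and_true, true_or, or_true, and_self]

end Pool.Agent.MdimSq
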