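import Pool.Agent.MdimSq.Dist
import Pool.Agent.MdimSq.Perm
import Pool.Agent.MdimSq.FamE
import Pool.Agent.MdimSq.FamO

namespace Pool.Agent.MdimSq

lemma val4 {α : Type} [DecidableEq α] {w x y z : α} (h1 : w ≠ x) (h2 : w ≠ y) (h3 : w ≠ z)
    (h4 : x ≠ y) (h5 : x ≠ z) (h6 : y ≠ z) :
    ({w, x, y, z} : Finset α).val = w ::ₘ x ::ₘ y ::ₘ {z} := by
  rw [Finset.insert_val_of_notMem, Finset.insert_val_of_notMem, Finset.insert_val_of_notMem,
    Finset.singleton_val]
  · simpa using h6
  · simp only [Finset.mem_insert, Finset.mem_singleton, not_or]; exact ⟨h4, h5⟩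
  · simp only [Finset.mem_insert, Finset.mem_singleton, not_or]; exact ⟨h1, h2, h3⟩

lemma ne_of_coord {n : ℕ} {a b c d : ℕ} (ha : a < n) (hb : b < n) (hc : c < n) (hd : d < n)
    (h : a ≠ c ∨ b ≠ d) :
    ((⟨a, ha⟩, ⟨b, hb⟩) : Fin n × Fin n) ≠ (⟨c, hc⟩, ⟨d, hd⟩) := by
  intro he
  simp only [Prod.mk.injEq, Fin.mk.injEq] at he
  omega

lemma even_set (k : ℕ) (hk : 2 ≤ k) : ∃ W : Finset (Fin (2 * k + 1) × Fin (2 * k + 1)),
    IsMSResolving (PP (2 * k + 1) (2 * k + 1)) W ∧ W.card = 4 := by
  let w1 : Fin (2 * k + 1) × Fin (2 * k + 1) := (⟨0, by omega⟩, ⟨0, by omega⟩)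
  let w2 : Fin (2 * k + 1) × Fin (2 * k + 1) := (⟨0, by omega⟩, ⟨1, by omega⟩)
  let w3 : Fin (2 * k + 1) × Fin (2 * k + 1) := (⟨0, by omega⟩, ⟨2 * k, by omega⟩)
  let w4 : Fin (2 * k + 1) × Fin (2 * k + 1) := (⟨2 * k, by omega⟩, ⟨0, by omega⟩)
  have h12 : w1 ≠ w2 := ne_of_coord _ _ _ _ (by omega)
  have h13 : w1 ≠ w3 := ne_of_coord _ _ _ _ (by omega)
  have h14 : w1 ≠ w4 := ne_of_coord _ _ _ _ (by omega)
  have h23 : w2 ≠ w3 := ne_of_coord _ _ _ _ (by omega)
  have h24 : w2 ≠ w4 := ne_of_coord _ _ _ _ (by omega)
  have h34 : w3 ≠ w4 := ne_of_coord _ _ _ _ (by omega)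
  refine ⟨{w1, w2, w3, w4}, ?_, ?_⟩
  · intro u v huv he
    apply huv
    unfold msRep at he
    rw [val4 h12 h13 h14 h23 h24 h34] at he
    simp only [Multiset.map_cons, Multiset.map_singleton] at he
    have h24' := ms24 he
    have reg : ∀ u : Fin (2 * k + 1) × Fin (2 * k + 1), EvenReg k u.1.val u.2.val
        ((PP (2 * k + 1) (2 * k + 1)).dist u w1) ((PP (2 * k + 1) (2 * k + 1)).dist u w2)
        ((PP (2 * k + 1) (2 * k + 1)).dist u w3) ((PP (2 * k + 1) (2 * k + 1)).dist u w4) := by
      rintro ⟨⟨x, hx⟩, ⟨y, hy⟩⟩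
      simp only [dist_eq, w1, w2, w3, w4, ad, EvenReg]
      obtain ⟨t, ht⟩ : ∃ t, t = y - 1 + (1 - y) := ⟨_, rfl⟩
      obtain ⟨z, hz⟩ : ∃ z, z + y = 2 * k := ⟨2 * k - y, by omega⟩
      obtain ⟨w, hw⟩ : ∃ w, w + x = 2 * k := ⟨2 * k - x, by omega⟩
      have e1 : x - 0 + (0 - x) = x := by omega
      have e2 : y - 0 + (0 - y) = y := by omega
      have e3 : y - 2 * k + (2 * k - y) = z := by omega
      have e4 : x - 2 * k + (2 * k - x) = w := by omega
      rw [e1, e2, e3, e4, ← ht]
      clear e1 e2 e3 e4
      by_cases c1 : y ≤ x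
      · by_cases c2 : 2 * k ≤ x + y
        · left
          have f1 : max x y = x := by omega
          have f2 : max x t = x := by omega
          have f3 : max x z = x := by omega
          have f4 : max w y = y := by omega
          rw [f1, f2, f3, f4]; omega
        · by_cases c3 : 1 ≤ x
          · right; left
            have f1 : max x y = x := by omega
            have f2 : max x t = x := by omega
            have f3 : max x z = z := by omega
            have f4 : max w y = w := by omega
            rw [f1, f2, f3, f4]; omega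
          · right; right; left
            have f1 : max x y = 0 := by omega
            have f2 : max x t = 1 := by omega
            have f3 : max x z = 2 * k := by omega
            have f4 : max w y = 2 * k := by omega
            rw [f1, f2, f3, f4]; omega
      · by_cases c2 : 2 * k ≤ x + y
        · right; right; right; left
          have f1 : max x y = y := by omega
          have f2 : max x t = y - 1 := by omega
          have f3 : max x z = x := by omega
          have f4 : max w y = y := by omega
          rw [f1, f2, f3, f4]; omega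
        · right; right; right; right
          have f1 : max x y = y := by omega
          have f2 : max x t = y - 1 := by omega
          have f3 : max x z = z := by omega
          have f4 : max w y = w := by omega
          rw [f1, f2, f3, f4]; omega
    obtain ⟨r1, r2⟩ := evenFam_core hk _ _ _ _ _ _ _ _ (reg u) (reg v) h24'
    exact Prod.ext (Fin.ext r1) (Fin.ext r2)
  · rw [Finset.card_insert_of_notMem, Finset.card_insert_of_notMem, Finset.card_insert_of_notMem,
      Finset.card_singleton]
    · simpa using h34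
    · simp only [Finset.mem_insert, Finset.mem_singleton, not_or]; exact ⟨h23, h24⟩
    · simp only [Finset.mem_insert, Finset.mem_singleton, not_or]; exact ⟨h12, h13, h14⟩

lemma odd_set (k : ℕ) (hk : 2 ≤ k) : ∃ W : Finset (Fin (2 * k + 2) × Fin (2 * k + 2)),
    IsMSResolving (PP (2 * k + 2) (2 * k + 2)) W ∧ W.card = 4 := by
  let w1 : Fin (2 * k + 2) × Fin (2 * k + 2) := (⟨0, by omega⟩, ⟨0, by omega⟩)
  let w2 : Fin (2 * k + 2) × Fin (2 * k + 2) := (⟨0, by omega⟩, ⟨2 * k, by omega⟩)
  let w3 : Fin (2 * k + 2) × Fin (2 * k + 2) := (⟨1, by omega⟩, ⟨2 * k, by omega⟩)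
  let w4 : Fin (2 * k + 2) × Fin (2 * k + 2) := (⟨2 * k + 1, by omega⟩, ⟨2 * k + 1, by omega⟩)
  have h12 : w1 ≠ w2 := ne_of_coord _ _ _ _ (by omega)
  have h13 : w1 ≠ w3 := ne_of_coord _ _ _ _ (by omega)
  have h14 : w1 ≠ w4 := ne_of_coord _ _ _ _ (by omega)
  have h23 : w2 ≠ w3 := ne_of_coord _ _ _ _ (by omega)
  have h24 : w2 ≠ w4 := ne_of_coord _ _ _ _ (by omega)
  have h34 : w3 ≠ w4 := ne_of_coord _ _ _ _ (by omega)
  refine ⟨{w1, w2, w3, w4}, ?_, ?_⟩
  · intro u v huv he
    apply huv
    unfold msRep at he
    rw [val4 h12 h13 h14 h23 h24 h34] at he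
    simp only [Multiset.map_cons, Multiset.map_singleton] at he
    have h24' := ms24 he
    have reg : ∀ u : Fin (2 * k + 2) × Fin (2 * k + 2), OddReg k u.1.val u.2.val
        ((PP (2 * k + 2) (2 * k + 2)).dist u w1) ((PP (2 * k + 2) (2 * k + 2)).dist u w2)
        ((PP (2 * k + 2) (2 * k + 2)).dist u w3) ((PP (2 * k + 2) (2 * k + 2)).dist u w4) := by
      rintro ⟨⟨x, hx⟩, ⟨y, hy⟩⟩
      simp only [dist_eq, w1, w2, w3, w4, ad, OddReg]
      obtain ⟨t, ht⟩ : ∃ t, t = y - 2 * k + (2 * k - y) := ⟨_, rfl⟩
      obtain ⟨s, hs⟩ : ∃ s, s = x - 1 + (1 - x) := ⟨_, rfl⟩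
      obtain ⟨z, hz⟩ : ∃ z, z + y = 2 * k + 1 := ⟨2 * k + 1 - y, by omega⟩
      obtain ⟨w, hw⟩ : ∃ w, w + x = 2 * k + 1 := ⟨2 * k + 1 - x, by omega⟩
      have e1 : x - 0 + (0 - x) = x := by omega
      have e2 : y - 0 + (0 - y) = y := by omega
      have e3 : y - (2 * k + 1) + (2 * k + 1 - y) = z := by omega
      have e4 : x - (2 * k + 1) + (2 * k + 1 - x) = w := by omega
      rw [e1, e2, e3, e4, ← ht, ← hs]
      clear e1 e2 e3 e4
      by_cases g1 : x = 0 ∧ y = 2 * k
      · obtain ⟨rfl, rfl⟩ := g1
        right; right; right; right; left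
        have f1 : max 0 (2 * k) = 2 * k := by omega
        have f2 : max 0 t = 0 := by omega
        have f3 : max s t = 1 := by omega
        have f4 : max w z = 2 * k + 1 := by omega
        rw [f1, f2, f3, f4]; (try simp only [true_and]) <;> omega
      by_cases g2 : x = 0 ∧ y = 2 * k + 1
      · obtain ⟨rfl, rfl⟩ := g2
        right; right; right; right; right; left
        have f1 : max 0 (2 * k + 1) = 2 * k + 1 := by omega
        have f2 : max 0 t = 1 := by omega
        have f3 : max s t = 1 := by omega
        have f4 : max w z = 2 * k + 1 := by omega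
        rw [f1, f2, f3, f4]; (try simp only [true_and]) <;> omega
      by_cases g3 : x = 1 ∧ y = 2 * k + 1
      · obtain ⟨rfl, rfl⟩ := g3
        right; right; right; right; right; right
        have f1 : max 1 (2 * k + 1) = 2 * k + 1 := by omega
        have f2 : max 1 t = 1 := by omega
        have f3 : max s t = 1 := by omega
        have f4 : max w z = 2 * k := by omega
        rw [f1, f2, f3, f4]; (try simp only [true_and]) <;> omega
      by_cases c1 : x ≤ y
      · by_cases c2 : x + y ≤ 2 * k
        · left
          have f1 : max x y = y := by omega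
          have f2 : max x t = t := by omega
          have f3 : max s t = t := by omega
          have f4 : max w z = w := by omega
          rw [f1, f2, f3, f4]; (try simp only [true_and]) <;> omega
        · right; right; left
          have f1 : max x y = y := by omega
          have f2 : max x t = x := by omega
          have f3 : max s t = x - 1 := by omega
          have f4 : max w z = w := by omega
          rw [f1, f2, f3, f4]; (try simp only [true_and]) <;> omega
      · by_cases c2 : x + y ≤ 2 * k
        · right; left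
          have f1 : max x y = x := by omega
          have f2 : max x t = t := by omega
          have f3 : max s t = t := by omega
          have f4 : max w z = z := by omega
          rw [f1, f2, f3, f4]; (try simp only [true_and]) <;> omega
        · right; right; right; left
          have f1 : max x y = x := by omega
          have f2 : max x t = x := by omega
          have f3 : max s t = x - 1 := by omega
          have f4 : max w z = z := by omega
          rw [f1, f2, f3, f4]; (try simp only [true_and]) <;> omega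
    obtain ⟨r1, r2⟩ := oddFam_core hk _ _ _ _ _ _ _ _ (reg u) (reg v) h24'
    exact Prod.ext (Fin.ext r1) (Fin.ext r2)
  · rw [Finset.card_insert_of_notMem, Finset.card_insert_of_notMem, Finset.card_insert_of_notMem,
      Finset.card_singleton]
    · simpa using h34
    · simp only [Finset.mem_insert, Finset.mem_singleton, not_or]; exact ⟨h23, h24⟩
    · simp only [Finset.mem_insert, Finset.mem_singleton, not_or]; exact ⟨h12, h13, h14⟩

lemma exists_four {n : ℕ} (hn : 5 ≤ n) : ∃ W : Finset (Fin n × Fin n),
    IsMSResolving (PP n n) W ∧ W.card = 4 := by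
  rcases Nat.even_or_odd' (n - 1) with ⟨k, hk | hk⟩
  · obtain rfl : n = 2 * k + 1 := by omega
    exact even_set k (by omega)
  · obtain rfl : n = 2 * k + 2 := by omega
    exact odd_set k (by omega)

end Pool.Agent.MdimSq
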