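import Pool.Agent.MdimSq.Lower
import Pool.Agent.MdimSq.Upper

namespace Pool.Agent.MdimSq

lemma mdim_ge {V : Type} (G : SimpleGraph V) (c : ℕ)
    (h : ∀ W : Finset V, IsMSResolving G W → c ≤ W.card) : (c : ℕ∞) ≤ mdim G := by
  unfold mdim
  apply le_sInf
  rintro k ⟨W, hW, rfl⟩
  exact_mod_cast h W hW

lemma mdim_le {V : Type} (G : SimpleGraph V) (c : ℕ) (W : Finset V) (hW : IsMSResolving G W)
    (hc : W.card = c) : mdim G ≤ (c : ℕ∞) := by
  unfold mdim
  apply sInf_le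
  exact ⟨W, hW, by rw [hc]⟩

lemma mdim_top {V : Type} (G : SimpleGraph V) (h : ∀ W : Finset V, ¬ IsMSResolving G W) :
    mdim G = ⊤ := by
  unfold mdim
  rw [sInf_eq_top]
  rintro k ⟨W, hW, rfl⟩
  exact absurd hW (h W)

lemma mdim_big (n : ℕ) (hn : 5 ≤ n) : mdim (PP n n) = 4 := by
  apply le_antisymm
  · obtain ⟨W, hW, hc⟩ := exists_four hn
    exact mdim_le _ 4 W hW hc
  · exact mdim_ge _ 4 (fun W hW => four_le (by omega) W hW)

end Pool.Agent.MdimSq
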