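import Mathlib

namespace Pool.Agent.MdimSq

/-- the four distances of the explicit set, by regions -/
def RegER (k x y a b c d : ℕ) : Prop :=
  ((y ≤ x ∧ x + y ≤ 2 * k ∧ x ≤ 2 * k - 1) ∧
    a = x ∧ b + x = 2 * k ∧ c + x = 2 * k ∧ d + y = 2 * k) ∨
  ((y ≤ x ∧ 2 * k < x + y ∧ x ≤ 2 * k) ∧
    a = x ∧ b = y ∧ c + 1 = y ∧ d + y = 2 * k) ∨
  ((x < y ∧ x + y ≤ 2 * k ∧ y ≤ 2 * k) ∧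
    a = y ∧ b + x = 2 * k ∧ c + x = 2 * k ∧ d + x = 2 * k) ∨
  ((x < y ∧ 2 * k < x + y ∧ y ≤ 2 * k) ∧
    a = y ∧ b = y ∧ c + 1 = y ∧ d + x = 2 * k) ∨
  ((x = 2 * k ∧ y = 0 ∧ y ≤ x) ∧
    a = 2 * k ∧ b = 0 ∧ c = 1 ∧ d = 2 * k) ∨
  ((2 * k < x ∧ 2 * k + y ≤ x ∧ x ≤ 3 * k - 1) ∧
    a = x ∧ b + 2 * k = x ∧ c + 2 * k = x ∧ d + y = 2 * k) ∨
  ((2 * k < x ∧ (x < 2 * k + y ∧ x + y ≤ 4 * k) ∧ x ≤ 3 * k - 1) ∧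
    a = x ∧ b = y ∧ c + 1 = y ∧ d + y = 2 * k) ∨
  ((2 * k < x ∧ (4 * k < x + y ∧ y ≤ 2 * k) ∧ x ≤ 3 * k - 1) ∧
    a = x ∧ b = y ∧ c + 1 = y ∧ d + 2 * k = x)

end Pool.Agent.MdimSq
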