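import Mathlib

namespace Pool.Agent.MdimSq

/-- the four distances of the explicit set, by regions -/
def RegOR (k x y a b c d : ℕ) : Prop :=
  ((y ≤ x ∧ x + y ≤ 2 * k + 3 ∧ (x ≤ 2 * k ∨ (x = 2 * k + 1 ∧ 1 ≤ y))) ∧
    a = x ∧ b + y = 2 * k + 1 ∧ c + x = 2 * k + 2 ∧ d + x = 2 * k + 2) ∨
  ((y ≤ x ∧ 2 * k + 3 < x + y ∧ x ≤ 2 * k + 1) ∧
    a = x ∧ b + y = 2 * k + 1 ∧ c + 1 = y ∧ d + 2 = y) ∨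
  ((x < y ∧ x + y ≤ 2 * k + 3 ∧ y ≤ 2 * k + 1) ∧
    a = y ∧ b + x = 2 * k + 1 ∧ c + x = 2 * k + 2 ∧ d + x = 2 * k + 2) ∨
  ((x < y ∧ 2 * k + 3 < x + y ∧ y ≤ 2 * k + 1) ∧
    a = y ∧ b + x = 2 * k + 1 ∧ c + 1 = y ∧ d + 2 = y) ∨
  ((x = 2 * k + 1 ∧ y = 0 ∧ y ≤ x) ∧
    a = 2 * k + 1 ∧ b = 2 * k + 1 ∧ c = 1 ∧ d = 2) ∨
  ((2 * k + 2 ≤ x ∧ (2 * k + 1 + y ≤ x ∧ (y = 0 → 2 * k + 4 ≤ x) ∧ (y = 1 → 2 * k + 3 ≤ x)) ∧ x ≤ 3 * k + 1) ∧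
    a = x ∧ b + y = 2 * k + 1 ∧ c + (2 * k + 2) = x ∧ d + (2 * k + 2) = x) ∨
  ((2 * k + 2 ≤ x ∧ (x < 2 * k + 1 + y ∧ x + y ≤ 4 * k + 2 ∧ 2 ≤ y) ∧ x ≤ 3 * k + 1) ∧
    a = x ∧ b + y = 2 * k + 1 ∧ c + 1 = y ∧ d + 2 = y) ∨
  ((2 * k + 2 ≤ x ∧ (4 * k + 2 < x + y ∧ y ≤ 2 * k + 1) ∧ x ≤ 3 * k + 1) ∧
    a = x ∧ b + (2 * k + 1) = x ∧ c + 1 = y ∧ d + 2 = y) ∨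
  ((x = 2 * k + 2 ∧ y = 1 ∧ y ≤ x) ∧
    a = 2 * k + 2 ∧ b = 2 * k ∧ c = 0 ∧ d = 1) ∨
  ((x = 2 * k + 2 ∧ y = 0 ∧ y ≤ x) ∧
    a = 2 * k + 2 ∧ b = 2 * k + 1 ∧ c = 1 ∧ d = 2) ∨
  ((x = 2 * k + 3 ∧ y = 0 ∧ x ≤ 3 * k + 1) ∧
    a = 2 * k + 3 ∧ b = 2 * k + 1 ∧ c = 1 ∧ d = 2)

end Pool.Agent.MdimSq
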