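import Pool.Agent.MdimSq.Dist

namespace Pool.Agent.MdimSq

/-- membership test -/
def memB (x : ℕ) : List ℕ → Bool
  | [] => false
  | y :: l => Nat.beq x y || memB x l

/-- duplicate test -/
def dupB : List ℕ → Bool
  | [] => false
  | x :: l => memB x l || dupB l

/-- all partial sums of at most `k` rows have a duplicate entry -/
def chk : List (List ℕ) → ℕ → List ℕ → Bool
  | [], _, acc => dupB acc
  | r :: rs, k, acc => chk rs k acc && (match k with
      | 0 => true
      | k + 1 => chk rs k (List.zipWith (fun a b => Nat.add a b) acc r))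

lemma memB_iff (x : ℕ) (l : List ℕ) : memB x l = true ↔ x ∈ l := by
  induction l with
  | nil => simp [memB]
  | cons y l ih => simp [memB, ih, Nat.beq_eq]

lemma exists_of_dupB {V : Type} (g : V → ℕ) (L : List V) (hL : L.Nodup)
    (h : dupB (L.map g) = true) : ∃ u v : V, u ≠ v ∧ g u = g v := by
  induction L with
  | nil => simp [dupB] at h
  | cons a L ih =>
    rw [List.nodup_cons] at hL
    simp only [List.map_cons, dupB, Bool.or_eq_true] at h
    rcases h with h | h
    · rw [memB_iff, List.mem_map] at h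
      obtain ⟨b, hb, hab⟩ := h
      refine ⟨a, b, ?_, hab.symm⟩
      rintro rfl
      exact hL.1 hb
    · exact ih hL.2 h

lemma chk_sound {V : Type} (L : List V) (c : V → V → ℕ) (rs : List V) :
    ∀ (k : ℕ) (f : V → ℕ), chk (rs.map (fun w => L.map (fun v => c v w))) k (L.map f) = true →
      ∀ l : List V, l.Sublist rs → l.length ≤ k →
        dupB (L.map (fun v => f v + (l.map (c v)).sum)) = true := by
  induction rs with
  | nil =>
    intro k f h l hl _
    rw [List.sublist_nil] at hl
    subst hl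
    simpa [chk] using h
  | cons w rs ih =>
    intro k f h l hl hk
    simp only [List.map_cons, chk, Bool.and_eq_true] at h
    rcases List.sublist_cons_iff.1 hl with hl | ⟨l', rfl, hl'⟩
    · exact ih k f h.1 l hl hk
    · cases k with
      | zero => simp at hk
      | succ k =>
        have h2 := h.2
        simp only [List.zipWith_map, List.zipWith_self] at h2
        have := ih k (fun v => f v + c v w) h2 l' hl' (by simpa using hk)
        simpa [List.map_cons, List.sum_cons, add_assoc] using this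

lemma sum_pow_eq (s : Multiset ℕ) (hs : ∀ x ∈ s, x ≤ 3) :
    (s.map (fun x => 32 ^ x)).sum = s.count 0 + 32 * s.count 1 + 1024 * s.count 2 +
      32768 * s.count 3 := by
  induction s using Multiset.induction_on with
  | empty => simp
  | cons a s ih =>
    have ha : a ≤ 3 := hs a (Multiset.mem_cons_self _ _)
    have := ih (fun x hx => hs x (Multiset.mem_cons_of_mem hx))
    rw [Multiset.map_cons, Multiset.sum_cons, this]
    interval_cases a <;> simp <;> ring

lemma eq_of_pow_sum (s t : Multiset ℕ) (hs : ∀ x ∈ s, x ≤ 3) (ht : ∀ x ∈ t, x ≤ 3)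
    (hsc : s.card ≤ 16) (htc : t.card ≤ 16)
    (h : (s.map (fun x => 32 ^ x)).sum = (t.map (fun x => 32 ^ x)).sum) : s = t := by
  rw [sum_pow_eq s hs, sum_pow_eq t ht] at h
  have b : ∀ (s : Multiset ℕ) k, s.count k ≤ s.card := fun s k => Multiset.count_le_card k s
  have b0 := b s 0
  have b1 := b s 1
  have b2 := b s 2
  have b3 := b s 3
  have c0 := b t 0
  have c1 := b t 1
  have c2 := b t 2
  have c3 := b t 3
  have e : s.count 0 = t.count 0 ∧ s.count 1 = t.count 1 ∧ s.count 2 = t.count 2 ∧
      s.count 3 = t.count 3 := by omega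
  obtain ⟨e0, e1, e2, e3⟩ := e
  ext k
  by_cases hk : k ≤ 3
  · interval_cases k
    · exact e0
    · exact e1
    · exact e2
    · exact e3
  · rw [Multiset.count_eq_zero_of_notMem, Multiset.count_eq_zero_of_notMem]
    · intro hk'; exact hk (ht k hk')
    · intro hk'; exact hk (hs k hk')

/-- all vertices of the grid -/
def verts (n : ℕ) : List (Fin n × Fin n) :=
  (List.finRange n).product (List.finRange n)

/-- the code of a distance -/
def cd {n : ℕ} (v w : Fin n × Fin n) : ℕ := 32 ^ (max (ad v.1.val w.1.val) (ad v.2.val w.2.val))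

lemma verts_nodup (n : ℕ) : (verts n).Nodup :=
  (List.nodup_finRange n).product (List.nodup_finRange n)

lemma mem_verts {n : ℕ} (v : Fin n × Fin n) : v ∈ verts n := by
  simp [verts, List.product]

lemma not_resolving_of_chk {n : ℕ} (hn : n ≤ 4) (k : ℕ)
    (h : chk ((verts n).map (fun w => (verts n).map (fun v => cd v w))) k
      ((verts n).map (fun _ => 0)) = true)
    (W : Finset (Fin n × Fin n)) (hW : W.card ≤ k) : ¬ IsMSResolving (PP n n) W := by
  intro hres
  classical
  set l := (verts n).filter (fun v => v ∈ W) with hl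
  have hsub : l.Sublist (verts n) := List.filter_sublist
  have hnd : l.Nodup := (verts_nodup n).sublist hsub
  have hWl : W = l.toFinset := by
    ext v
    simp [hl, mem_verts]
  have hval : W.val = (l : Multiset (Fin n × Fin n)) := by
    rw [hWl, List.toFinset_val, hnd.dedup]
  have hlen : l.length ≤ k := by
    have : W.card = l.length := by rw [hWl, List.toFinset_card_of_nodup hnd]
    omega
  have hd := chk_sound (verts n) cd (verts n) k (fun _ => 0) h l hsub hlen
  obtain ⟨u, v, huv, he⟩ := exists_of_dupB _ _ (verts_nodup n) hd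
  apply hres u v huv
  have hc : W.card ≤ 16 := by
    calc W.card ≤ Fintype.card (Fin n × Fin n) := Finset.card_le_univ W
      _ = n * n := by simp
      _ ≤ 16 := by nlinarith
  have hb : ∀ u : Fin n × Fin n, ∀ x ∈ msRep (PP n n) W u, x ≤ 3 := by
    intro u x hx
    unfold msRep at hx
    rw [Multiset.mem_map] at hx
    obtain ⟨w, -, rfl⟩ := hx
    rw [dist_eq]
    have := u.1.isLt
    have := u.2.isLt
    have := w.1.isLt
    have := w.2.isLt
    simp only [ad]
    omega
  have hcard : ∀ u, (msRep (PP n n) W u).card ≤ 16 := by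
    intro u; unfold msRep; rw [Multiset.card_map]; exact hc
  have hs : ∀ u, ((msRep (PP n n) W u).map (fun x => 32 ^ x)).sum = (l.map (cd u)).sum := by
    intro u
    unfold msRep
    rw [hval, Multiset.map_map, Multiset.map_coe, Multiset.sum_coe]
    congr 1
    apply List.map_congr_left
    intro w _
    simp only [Function.comp, cd, dist_eq]
  apply eq_of_pow_sum _ _ (hb u) (hb v) (hcard u) (hcard v)
  rw [hs u, hs v]
  simpa using he

/-- distance codes on the three by three grid -/
def rows3 : List (List ℕ) :=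
  [[1, 32, 1024, 32, 32, 1024, 1024, 1024, 1024],
   [32, 1, 32, 32, 32, 32, 1024, 1024, 1024],
   [1024, 32, 1, 1024, 32, 32, 1024, 1024, 1024],
   [32, 32, 1024, 1, 32, 1024, 32, 32, 1024],
   [32, 32, 32, 32, 1, 32, 32, 32, 32],
   [1024, 32, 32, 1024, 32, 1, 1024, 32, 32],
   [1024, 1024, 1024, 32, 32, 1024, 1, 32, 1024],
   [1024, 1024, 1024, 32, 32, 32, 32, 1, 32],
   [1024, 1024, 1024, 1024, 32, 32, 1024, 32, 1]]

/-- distance codes on the four by four grid -/
def rows4 : List (List ℕ) :=
  [[1, 32, 1024, 32768, 32, 32, 1024, 32768, 1024, 1024, 1024, 32768, 32768, 32768, 32768, 32768],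
   [32, 1, 32, 1024, 32, 32, 32, 1024, 1024, 1024, 1024, 1024, 32768, 32768, 32768, 32768],
   [1024, 32, 1, 32, 1024, 32, 32, 32, 1024, 1024, 1024, 1024, 32768, 32768, 32768, 32768],
   [32768, 1024, 32, 1, 32768, 1024, 32, 32, 32768, 1024, 1024, 1024, 32768, 32768, 32768, 32768],
   [32, 32, 1024, 32768, 1, 32, 1024, 32768, 32, 32, 1024, 32768, 1024, 1024, 1024, 32768],
   [32, 32, 32, 1024, 32, 1, 32, 1024, 32, 32, 32, 1024, 1024, 1024, 1024, 1024],
   [1024, 32, 32, 32, 1024, 32, 1, 32, 1024, 32, 32, 32, 1024, 1024, 1024, 1024],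
   [32768, 1024, 32, 32, 32768, 1024, 32, 1, 32768, 1024, 32, 32, 32768, 1024, 1024, 1024],
   [1024, 1024, 1024, 32768, 32, 32, 1024, 32768, 1, 32, 1024, 32768, 32, 32, 1024, 32768],
   [1024, 1024, 1024, 1024, 32, 32, 32, 1024, 32, 1, 32, 1024, 32, 32, 32, 1024],
   [1024, 1024, 1024, 1024, 1024, 32, 32, 32, 1024, 32, 1, 32, 1024, 32, 32, 32],
   [32768, 1024, 1024, 1024, 32768, 1024, 32, 32, 32768, 1024, 32, 1, 32768, 1024, 32, 32],
   [32768, 32768, 32768, 32768, 1024, 1024, 1024, 32768, 32, 32, 1024, 32768, 1, 32, 1024, 32768],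
   [32768, 32768, 32768, 32768, 1024, 1024, 1024, 1024, 32, 32, 32, 1024, 32, 1, 32, 1024],
   [32768, 32768, 32768, 32768, 1024, 1024, 1024, 1024, 1024, 32, 32, 32, 1024, 32, 1, 32],
   [32768, 32768, 32768, 32768, 32768, 1024, 1024, 1024, 32768, 1024, 32, 32, 32768, 1024, 32, 1]]

lemma rows3_eq : (verts 3).map (fun w => (verts 3).map (fun v => cd v w)) = rows3 := by
  decide +kernel

lemma rows4_eq : (verts 4).map (fun w => (verts 4).map (fun v => cd v w)) = rows4 := by
  decide +kernel

lemma zeros3 : (verts 3).map (fun _ => 0) = [0, 0, 0, 0, 0, 0, 0, 0, 0] := by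
  decide +kernel

lemma zeros4 : (verts 4).map (fun _ => 0) = [0, 0, 0, 0, 0, 0, 0, 0, 0, 0, 0, 0, 0, 0, 0, 0] := by
  decide +kernel

lemma chk3 : chk rows3 9 [0, 0, 0, 0, 0, 0, 0, 0, 0] = true := by
  decide +kernel

lemma chk4 : chk rows4 5 [0, 0, 0, 0, 0, 0, 0, 0, 0, 0, 0, 0, 0, 0, 0, 0] = true := by
  decide +kernel

lemma none3 (W : Finset (Fin 3 × Fin 3)) : ¬ IsMSResolving (PP 3 3) W := by
  apply not_resolving_of_chk (by omega) 9
  · rw [rows3_eq, zeros3]; exact chk3
  · calc W.card ≤ Fintype.card (Fin 3 × Fin 3) := Finset.card_le_univ W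
      _ = 9 := by simp

lemma six_le4 (W : Finset (Fin 4 × Fin 4)) (h : IsMSResolving (PP 4 4) W) : 6 ≤ W.card := by
  by_contra hc
  refine not_resolving_of_chk (by omega) 5 ?_ W (by omega) h
  rw [rows4_eq, zeros4]; exact chk4

lemma exists_six4 : ∃ W : Finset (Fin 4 × Fin 4), IsMSResolving (PP 4 4) W ∧ W.card = 6 := by
  refine ⟨{(0, 0), (0, 1), (0, 2), (1, 1), (2, 3), (3, 2)}, ?_, by decide +kernel⟩
  intro u v huv he
  apply huv
  have key : ∀ u v : Fin 4 × Fin 4,
      (∑ w ∈ ({(0, 0), (0, 1), (0, 2), (1, 1), (2, 3), (3, 2)} : Finset (Fin 4 × Fin 4)), cd u w) =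
      (∑ w ∈ ({(0, 0), (0, 1), (0, 2), (1, 1), (2, 3), (3, 2)} : Finset (Fin 4 × Fin 4)), cd v w) →
      u = v := by decide +kernel
  apply key
  have hs : ∀ (W : Finset (Fin 4 × Fin 4)) u,
      ((msRep (PP 4 4) W u).map (fun x => 32 ^ x)).sum = ∑ w ∈ W, cd u w := by
    intro W u
    unfold msRep
    rw [Multiset.map_map]
    unfold Finset.sum
    congr 1
    apply Multiset.map_congr rfl
    intro w _
    simp only [Function.comp, cd, dist_eq]
  rw [← hs, ← hs, he]

end Pool.Agent.MdimSq
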