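import Pool.Agent.MdimSq.Small

namespace Pool.Agent.MdimSq

lemma sum_pow_eq4 (s : Multiset ℕ) (hs : ∀ x ∈ s, x ≤ 4) :
    (s.map (fun x => 32 ^ x)).sum = s.count 0 + 32 * s.count 1 + 1024 * s.count 2 +
      32768 * s.count 3 + 1048576 * s.count 4 := by
  induction s using Multiset.induction_on with
  | empty => simp
  | cons a s ih =>
    have ha : a ≤ 4 := hs a (Multiset.mem_cons_self _ _)
    have := ih (fun x hx => hs x (Multiset.mem_cons_of_mem hx))
    rw [Multiset.map_cons, Multiset.sum_cons, this]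
    interval_cases a <;> simp <;> ring

lemma eq_of_pow_sum4 (s t : Multiset ℕ) (hs : ∀ x ∈ s, x ≤ 4) (ht : ∀ x ∈ t, x ≤ 4)
    (hsc : s.card ≤ 16) (htc : t.card ≤ 16)
    (h : (s.map (fun x => 32 ^ x)).sum = (t.map (fun x => 32 ^ x)).sum) : s = t := by
  rw [sum_pow_eq4 s hs, sum_pow_eq4 t ht] at h
  have b : ∀ (s : Multiset ℕ) k, s.count k ≤ s.card := fun s k => Multiset.count_le_card k s
  have b0 := b s 0
  have b1 := b s 1
  have b2 := b s 2
  have b3 := b s 3
  have b4 := b s 4
  have c0 := b t 0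
  have c1 := b t 1
  have c2 := b t 2
  have c3 := b t 3
  have c4 := b t 4
  have e : s.count 0 = t.count 0 ∧ s.count 1 = t.count 1 ∧ s.count 2 = t.count 2 ∧
      s.count 3 = t.count 3 ∧ s.count 4 = t.count 4 := by omega
  obtain ⟨e0, e1, e2, e3, e4⟩ := e
  ext k
  by_cases hk : k ≤ 4
  · interval_cases k
    · exact e0
    · exact e1
    · exact e2
    · exact e3
    · exact e4
  · rw [Multiset.count_eq_zero_of_notMem, Multiset.count_eq_zero_of_notMem]
    · intro hk'; exact hk (ht k hk')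
    · intro hk'; exact hk (hs k hk')

/-- all vertices of the five by four grid -/
def verts54 : List (Fin 5 × Fin 4) :=
  (List.finRange 5).product (List.finRange 4)

/-- the code of a distance -/
def cd54 (v w : Fin 5 × Fin 4) : ℕ := 32 ^ (max (ad v.1.val w.1.val) (ad v.2.val w.2.val))

lemma verts54_nodup : verts54.Nodup :=
  (List.nodup_finRange 5).product (List.nodup_finRange 4)

lemma mem_verts54 (v : Fin 5 × Fin 4) : v ∈ verts54 := by
  simp [verts54, List.product]

lemma not_resolving54_of_chk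
    (h : chk (verts54.map (fun w => verts54.map (fun v => cd54 v w))) 4
      (verts54.map (fun _ => 0)) = true)
    (W : Finset (Fin 5 × Fin 4)) (hW : W.card ≤ 4) : ¬ IsMSResolving (PP 5 4) W := by
  intro hres
  classical
  set l := verts54.filter (fun v => v ∈ W) with hl
  have hsub : l.Sublist verts54 := List.filter_sublist
  have hnd : l.Nodup := verts54_nodup.sublist hsub
  have hWl : W = l.toFinset := by
    ext v
    simp [hl, mem_verts54]
  have hval : W.val = (l : Multiset (Fin 5 × Fin 4)) := by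
    rw [hWl, List.toFinset_val, hnd.dedup]
  have hlen : l.length ≤ 4 := by
    have : W.card = l.length := by rw [hWl, List.toFinset_card_of_nodup hnd]
    omega
  have hd := chk_sound verts54 cd54 verts54 4 (fun _ => 0) h l hsub hlen
  obtain ⟨u, v, huv, he⟩ := exists_of_dupB _ _ verts54_nodup hd
  apply hres u v huv
  have hb : ∀ u : Fin 5 × Fin 4, ∀ x ∈ msRep (PP 5 4) W u, x ≤ 4 := by
    intro u x hx
    unfold msRep at hx
    rw [Multiset.mem_map] at hx
    obtain ⟨w, -, rfl⟩ := hx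
    rw [dist_eq]
    have := u.1.isLt
    have := u.2.isLt
    have := w.1.isLt
    have := w.2.isLt
    simp only [ad]
    omega
  have hcard : ∀ u, (msRep (PP 5 4) W u).card ≤ 16 := by
    intro u; unfold msRep; rw [Multiset.card_map]
    have : W.card ≤ 16 := by omega
    exact this
  have hs : ∀ u, ((msRep (PP 5 4) W u).map (fun x => 32 ^ x)).sum = (l.map (cd54 u)).sum := by
    intro u
    unfold msRep
    rw [hval, Multiset.map_map, Multiset.map_coe, Multiset.sum_coe]
    congr 1
    apply List.map_congr_left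
    intro w _
    simp only [Function.comp, cd54, dist_eq]
  apply eq_of_pow_sum4 _ _ (hb u) (hb v) (hcard u) (hcard v)
  rw [hs u, hs v]
  simpa using he

/-- distance codes on the five by four grid -/
def rows54 : List (List ℕ) :=
  [[1, 32, 1024, 32768, 32, 32, 1024, 32768, 1024, 1024, 1024, 32768, 32768, 32768, 32768, 32768, 1048576, 1048576, 1048576, 1048576],
   [32, 1, 32, 1024, 32, 32, 32, 1024, 1024, 1024, 1024, 1024, 32768, 32768, 32768, 32768, 1048576, 1048576, 1048576, 1048576],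
   [1024, 32, 1, 32, 1024, 32, 32, 32, 1024, 1024, 1024, 1024, 32768, 32768, 32768, 32768, 1048576, 1048576, 1048576, 1048576],
   [32768, 1024, 32, 1, 32768, 1024, 32, 32, 32768, 1024, 1024, 1024, 32768, 32768, 32768, 32768, 1048576, 1048576, 1048576, 1048576],
   [32, 32, 1024, 32768, 1, 32, 1024, 32768, 32, 32, 1024, 32768, 1024, 1024, 1024, 32768, 32768, 32768, 32768, 32768],
   [32, 32, 32, 1024, 32, 1, 32, 1024, 32, 32, 32, 1024, 1024, 1024, 1024, 1024, 32768, 32768, 32768, 32768],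
   [1024, 32, 32, 32, 1024, 32, 1, 32, 1024, 32, 32, 32, 1024, 1024, 1024, 1024, 32768, 32768, 32768, 32768],
   [32768, 1024, 32, 32, 32768, 1024, 32, 1, 32768, 1024, 32, 32, 32768, 1024, 1024, 1024, 32768, 32768, 32768, 32768],
   [1024, 1024, 1024, 32768, 32, 32, 1024, 32768, 1, 32, 1024, 32768, 32, 32, 1024, 32768, 1024, 1024, 1024, 32768],
   [1024, 1024, 1024, 1024, 32, 32, 32, 1024, 32, 1, 32, 1024, 32, 32, 32, 1024, 1024, 1024, 1024, 1024],
   [1024, 1024, 1024, 1024, 1024, 32, 32, 32, 1024, 32, 1, 32, 1024, 32, 32, 32, 1024, 1024, 1024, 1024],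
   [32768, 1024, 1024, 1024, 32768, 1024, 32, 32, 32768, 1024, 32, 1, 32768, 1024, 32, 32, 32768, 1024, 1024, 1024],
   [32768, 32768, 32768, 32768, 1024, 1024, 1024, 32768, 32, 32, 1024, 32768, 1, 32, 1024, 32768, 32, 32, 1024, 32768],
   [32768, 32768, 32768, 32768, 1024, 1024, 1024, 1024, 32, 32, 32, 1024, 32, 1, 32, 1024, 32, 32, 32, 1024],
   [32768, 32768, 32768, 32768, 1024, 1024, 1024, 1024, 1024, 32, 32, 32, 1024, 32, 1, 32, 1024, 32, 32, 32],
   [32768, 32768, 32768, 32768, 32768, 1024, 1024, 1024, 32768, 1024, 32, 32, 32768, 1024, 32, 1, 32768, 1024, 32, 32],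
   [1048576, 1048576, 1048576, 1048576, 32768, 32768, 32768, 32768, 1024, 1024, 1024, 32768, 32, 32, 1024, 32768, 1, 32, 1024, 32768],
   [1048576, 1048576, 1048576, 1048576, 32768, 32768, 32768, 32768, 1024, 1024, 1024, 1024, 32, 32, 32, 1024, 32, 1, 32, 1024],
   [1048576, 1048576, 1048576, 1048576, 32768, 32768, 32768, 32768, 1024, 1024, 1024, 1024, 1024, 32, 32, 32, 1024, 32, 1, 32],
   [1048576, 1048576, 1048576, 1048576, 32768, 32768, 32768, 32768, 32768, 1024, 1024, 1024, 32768, 1024, 32, 32, 32768, 1024, 32, 1]]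

lemma rows54_eq : verts54.map (fun w => verts54.map (fun v => cd54 v w)) = rows54 := by
  decide +kernel

lemma zeros54 : verts54.map (fun _ => 0) =
    [0, 0, 0, 0, 0, 0, 0, 0, 0, 0, 0, 0, 0, 0, 0, 0, 0, 0, 0, 0] := by
  decide +kernel

lemma chk54 : chk rows54 4 [0, 0, 0, 0, 0, 0, 0, 0, 0, 0, 0, 0, 0, 0, 0, 0, 0, 0, 0, 0] = true := by
  decide +kernel

lemma five_le54 (W : Finset (Fin 5 × Fin 4)) (h : IsMSResolving (PP 5 4) W) : 5 ≤ W.card := by
  by_contra hc
  refine not_resolving54_of_chk ?_ W (by omega) h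
  rw [rows54_eq, zeros54]; exact chk54

lemma exists_five54 : ∃ W : Finset (Fin 5 × Fin 4), IsMSResolving (PP 5 4) W ∧ W.card = 5 := by
  refine ⟨{(0, 0), (0, 1), (0, 3), (1, 3), (4, 0)}, ?_, by decide +kernel⟩
  intro u v huv he
  apply huv
  have key : ∀ u v : Fin 5 × Fin 4,
      (∑ w ∈ ({(0, 0), (0, 1), (0, 3), (1, 3), (4, 0)} : Finset (Fin 5 × Fin 4)), cd54 u w) =
      (∑ w ∈ ({(0, 0), (0, 1), (0, 3), (1, 3), (4, 0)} : Finset (Fin 5 × Fin 4)), cd54 v w) →
      u = v := by decide +kernel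
  apply key
  have hs : ∀ (W : Finset (Fin 5 × Fin 4)) u,
      ((msRep (PP 5 4) W u).map (fun x => 32 ^ x)).sum = ∑ w ∈ W, cd54 u w := by
    intro W u
    unfold msRep
    rw [Multiset.map_map]
    unfold Finset.sum
    congr 1
    apply Multiset.map_congr rfl
    intro w _
    simp only [Function.comp, cd54, dist_eq]
  rw [← hs, ← hs, he]

end Pool.Agent.MdimSq
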