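import Pool.Agent.MdimSq.Upper
import Pool.Agent.MdimSq.FamER

namespace Pool.Agent.MdimSq

lemma ne_of_coordR {n m : ℕ} {a b c d : ℕ} (ha : a < n) (hb : b < m) (hc : c < n) (hd : d < m)
    (h : a ≠ c ∨ b ≠ d) :
    ((⟨a, ha⟩, ⟨b, hb⟩) : Fin n × Fin m) ≠ (⟨c, hc⟩, ⟨d, hd⟩) := by
  intro he
  simp only [Prod.mk.injEq, Fin.mk.injEq] at he
  omega

lemma even_setR {n m : ℕ} (k : ℕ) (hk : 2 ≤ k) (hm : m = 2 * k + 1) (h1 : 2 * k + 1 ≤ n) (h2 : n ≤ 3 * k) :
    ∃ W : Finset (Fin n × Fin m), IsMSResolving (PP n m) W ∧ W.card = 4 := by
  let w1 : Fin n × Fin m := (⟨0, by omega⟩, ⟨0, by omega⟩)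
  let w2 : Fin n × Fin m := (⟨2 * k, by omega⟩, ⟨0, by omega⟩)
  let w3 : Fin n × Fin m := (⟨2 * k, by omega⟩, ⟨1, by omega⟩)
  let w4 : Fin n × Fin m := (⟨2 * k, by omega⟩, ⟨2 * k, by omega⟩)
  have h12 : w1 ≠ w2 := ne_of_coordR _ _ _ _ (by omega)
  have h13 : w1 ≠ w3 := ne_of_coordR _ _ _ _ (by omega)
  have h14 : w1 ≠ w4 := ne_of_coordR _ _ _ _ (by omega)
  have h23 : w2 ≠ w3 := ne_of_coordR _ _ _ _ (by omega)
  have h24 : w2 ≠ w4 := ne_of_coordR _ _ _ _ (by omega)
  have h34 : w3 ≠ w4 := ne_of_coordR _ _ _ _ (by omega)
  refine ⟨{w1, w2, w3, w4}, ?_, ?_⟩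
  · intro u v huv he
    apply huv
    unfold msRep at he
    rw [val4 h12 h13 h14 h23 h24 h34] at he
    simp only [Multiset.map_cons, Multiset.map_singleton] at he
    have h24' := ms24 he
    have reg : ∀ u : Fin n × Fin m, RegER k u.1.val u.2.val
        ((PP n m).dist u w1) ((PP n m).dist u w2) ((PP n m).dist u w3) ((PP n m).dist u w4) := by
      clear h24' he
      rintro ⟨⟨x, hx⟩, ⟨y, hy⟩⟩
      simp only [dist_eq, w1, w2, w3, w4, ad, RegER]
      obtain ⟨s, hs⟩ : ∃ s, s = x - 2 * k + (2 * k - x) := ⟨_, rfl⟩
      obtain ⟨t, ht⟩ : ∃ t, t = y - 1 + (1 - y) := ⟨_, rfl⟩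
      obtain ⟨z, hz⟩ : ∃ z, z + y = 2 * k := ⟨2 * k - y, by omega⟩
      have e1 : x - 0 + (0 - x) = x := by omega
      have e2 : y - 0 + (0 - y) = y := by omega
      have e3 : y - 2 * k + (2 * k - y) = z := by omega
      rw [e1, e2, e3, ← hs, ← ht]
      clear e1 e2 e3
      by_cases c0 : x = 2 * k ∧ y = 0
      · obtain ⟨rfl, rfl⟩ := c0
        right; right; right; right; left
        have f1 : max (2 * k) 0 = 2 * k := by omega
        have f2 : max s 0 = 0 := by omega
        have f3 : max s t = 1 := by omega
        have f4 : max s z = 2 * k := by omega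
        rw [f1, f2, f3, f4]; omega
      have ht' : (y = 0 ∧ t = 1) ∨ (1 ≤ y ∧ t + 1 = y) := by omega
      clear ht
      by_cases c1 : x ≤ 2 * k
      · have hs' : s + x = 2 * k := by omega
        clear hs
        by_cases c2 : y ≤ x
        · by_cases c3 : x + y ≤ 2 * k
          · left
            have f1 : max x y = x := by omega
            have f2 : max s y = s := by omega
            have f3 : max s t = s := by omega
            have f4 : max s z = z := by omega
            rw [f1, f2, f3, f4]; omega
          · right; left
            have f1 : max x y = x := by omega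
            have f2 : max s y = y := by omega
            have f3 : max s t = y - 1 := by omega
            have f4 : max s z = z := by omega
            rw [f1, f2, f3, f4]; omega
        · by_cases c3 : x + y ≤ 2 * k
          · right; right; left
            have f1 : max x y = y := by omega
            have f2 : max s y = s := by omega
            have f3 : max s t = s := by omega
            have f4 : max s z = s := by omega
            rw [f1, f2, f3, f4]; omega
          · right; right; right; left
            have f1 : max x y = y := by omega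
            have f2 : max s y = y := by omega
            have f3 : max s t = y - 1 := by omega
            have f4 : max s z = s := by omega
            rw [f1, f2, f3, f4]; omega
      · have hs' : s + 2 * k = x := by omega
        clear hs
        by_cases c2 : 2 * k + y ≤ x
        · right; right; right; right; right; left
          have f1 : max x y = x := by omega
          have f2 : max s y = s := by omega
          have f3 : max s t = s := by omega
          have f4 : max s z = z := by omega
          rw [f1, f2, f3, f4]; omega
        · by_cases c3 : x + y ≤ 4 * k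
          · right; right; right; right; right; right; left
            have f1 : max x y = x := by omega
            have f2 : max s y = y := by omega
            have f3 : max s t = y - 1 := by omega
            have f4 : max s z = z := by omega
            rw [f1, f2, f3, f4]; omega
          · right; right; right; right; right; right; right
            have f1 : max x y = x := by omega
            have f2 : max s y = y := by omega
            have f3 : max s t = y - 1 := by omega
            have f4 : max s z = s := by omega
            rw [f1, f2, f3, f4]; omega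
    have hr : u.1.val = v.1.val ∧ u.2.val = v.2.val := by
      rcases h24' with ⟨g1, g⟩ | ⟨g1, g⟩ | ⟨g1, g⟩ | ⟨g1, g⟩
      · exact er_0 hk _ _ _ _ _ _ _ _ (reg u) (reg v) g1 g
      · exact er_1 hk _ _ _ _ _ _ _ _ (reg u) (reg v) g1 g
      · exact er_2 hk _ _ _ _ _ _ _ _ (reg u) (reg v) g1 g
      · exact er_3 hk _ _ _ _ _ _ _ _ (reg u) (reg v) g1 g
    exact Prod.ext (Fin.ext hr.1) (Fin.ext hr.2)
  · rw [Finset.card_insert_of_notMem, Finset.card_insert_of_notMem, Finset.card_insert_of_notMem,
      Finset.card_singleton]
    · simpa using h34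
    · simp only [Finset.mem_insert, Finset.mem_singleton, not_or]; exact ⟨h23, h24⟩
    · simp only [Finset.mem_insert, Finset.mem_singleton, not_or]; exact ⟨h12, h13, h14⟩

end Pool.Agent.MdimSq
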