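import Pool.Agent.MdimSq.UpperRE
import Pool.Agent.MdimSq.FamOR1
import Pool.Agent.MdimSq.FamOR2

namespace Pool.Agent.MdimSq

lemma odd_setR {n m : ℕ} (k : ℕ) (hk : 2 ≤ k) (hm : m = 2 * k + 2) (h1 : 2 * k + 3 ≤ n) (h2 : n ≤ 3 * k + 2) :
    ∃ W : Finset (Fin n × Fin m), IsMSResolving (PP n m) W ∧ W.card = 4 := by
  let w1 : Fin n × Fin m := (⟨0, by omega⟩, ⟨0, by omega⟩)
  let w2 : Fin n × Fin m := (⟨2 * k + 1, by omega⟩, ⟨2 * k + 1, by omega⟩)
  let w3 : Fin n × Fin m := (⟨2 * k + 2, by omega⟩, ⟨1, by omega⟩)
  let w4 : Fin n × Fin m := (⟨2 * k + 2, by omega⟩, ⟨2, by omega⟩)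
  have h12 : w1 ≠ w2 := ne_of_coordR _ _ _ _ (by omega)
  have h13 : w1 ≠ w3 := ne_of_coordR _ _ _ _ (by omega)
  have h14 : w1 ≠ w4 := ne_of_coordR _ _ _ _ (by omega)
  have h23 : w2 ≠ w3 := ne_of_coordR _ _ _ _ (by omega)
  have h24 : w2 ≠ w4 := ne_of_coordR _ _ _ _ (by omega)
  have h34 : w3 ≠ w4 := ne_of_coordR _ _ _ _ (by omega)
  refine ⟨{w1, w2, w3, w4}, ?_, ?_⟩
  · intro u v huv he
    apply huv
    unfold msRep at he
    rw [val4 h12 h13 h14 h23 h24 h34] at he
    simp only [Multiset.map_cons, Multiset.map_singleton] at he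
    have h24' := ms24 he
    have reg : ∀ u : Fin n × Fin m, RegOR k u.1.val u.2.val
        ((PP n m).dist u w1) ((PP n m).dist u w2) ((PP n m).dist u w3) ((PP n m).dist u w4) := by
      clear h24' he
      rintro ⟨⟨x, hx⟩, ⟨y, hy⟩⟩
      simp only [dist_eq, w1, w2, w3, w4, ad, RegOR]
      obtain ⟨s, hs⟩ : ∃ s, s = x - (2 * k + 1) + (2 * k + 1 - x) := ⟨_, rfl⟩
      obtain ⟨r, hr⟩ : ∃ r, r = x - (2 * k + 2) + (2 * k + 2 - x) := ⟨_, rfl⟩
      obtain ⟨t, ht⟩ : ∃ t, t = y - 1 + (1 - y) := ⟨_, rfl⟩
      obtain ⟨w, hw⟩ : ∃ w, w = y - 2 + (2 - y) := ⟨_, rfl⟩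
      obtain ⟨z, hz⟩ : ∃ z, z + y = 2 * k + 1 := ⟨2 * k + 1 - y, by omega⟩
      have e1 : x - 0 + (0 - x) = x := by omega
      have e2 : y - 0 + (0 - y) = y := by omega
      have e3 : y - (2 * k + 1) + (2 * k + 1 - y) = z := by omega
      rw [e1, e2, e3, ← hs, ← hr, ← ht, ← hw]
      clear e1 e2 e3
      by_cases c5 : x = 2 * k + 1 ∧ y = 0
      · obtain ⟨rfl, rfl⟩ := c5
        right; right; right; right; left
        have f1 : max (2 * k + 1) 0 = 2 * k + 1 := by omega
        have f2 : max s z = 2 * k + 1 := by omega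
        have f3 : max r t = 1 := by omega
        have f4 : max r w = 2 := by omega
        rw [f1, f2, f3, f4]; omega
      by_cases c6 : x = 2 * k + 2 ∧ y = 1
      · obtain ⟨rfl, rfl⟩ := c6
        right; right; right; right; right; right; right; right; left
        have f1 : max (2 * k + 2) 1 = 2 * k + 2 := by omega
        have f2 : max s z = 2 * k := by omega
        have f3 : max r t = 0 := by omega
        have f4 : max r w = 1 := by omega
        rw [f1, f2, f3, f4]; omega
      by_cases c7 : x = 2 * k + 2 ∧ y = 0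
      · obtain ⟨rfl, rfl⟩ := c7
        right; right; right; right; right; right; right; right; right; left
        have f1 : max (2 * k + 2) 0 = 2 * k + 2 := by omega
        have f2 : max s z = 2 * k + 1 := by omega
        have f3 : max r t = 1 := by omega
        have f4 : max r w = 2 := by omega
        rw [f1, f2, f3, f4]; omega
      by_cases c8 : x = 2 * k + 3 ∧ y = 0
      · obtain ⟨rfl, rfl⟩ := c8
        right; right; right; right; right; right; right; right; right; right
        have f1 : max (2 * k + 3) 0 = 2 * k + 3 := by omega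
        have f2 : max s z = 2 * k + 1 := by omega
        have f3 : max r t = 1 := by omega
        have f4 : max r w = 2 := by omega
        rw [f1, f2, f3, f4]; omega
      have ht' : (y = 0 ∧ t = 1 ∧ w = 2) ∨ (y = 1 ∧ t = 0 ∧ w = 1) ∨
          (2 ≤ y ∧ t + 1 = y ∧ w + 2 = y) := by
        clear hs hr c5 c6 c7 c8 hz
        omega
      clear ht hw
      by_cases c1 : x ≤ 2 * k + 1
      · have hs' : s + x = 2 * k + 1 := by
          clear ht' c5 c6 c7 c8 hr hz
          omega
        have hr' : r + x = 2 * k + 2 := by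
          clear ht' c5 c6 c7 c8 hs hz
          omega
        have g5 : x ≤ 2 * k ∨ 1 ≤ y := by
          clear ht' c6 c7 c8 hs hr hz hs' hr'
          omega
        clear hs hr c5 c6 c7 c8
        by_cases c2 : y ≤ x
        · have f1 : max x y = x := max_eq_left c2
          have f2 : max s z = z := max_eq_right (by clear ht' g5; omega)
          by_cases c3 : x + y ≤ 2 * k + 3
          · have f3 : max r t = r := max_eq_left (by
              rcases ht' with ⟨i1, i2, i3⟩ | ⟨i1, i2, i3⟩ | ⟨i1, i2, i3⟩ <;> omega)
            have f4 : max r w = r := max_eq_left (by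
              rcases ht' with ⟨i1, i2, i3⟩ | ⟨i1, i2, i3⟩ | ⟨i1, i2, i3⟩ <;> omega)
            rw [f1, f2, f3, f4]
            clear f1 f2 f3 f4 ht'
            left
            refine ⟨⟨c2, c3, ?_⟩, rfl, hz, hr', hr'⟩
            omega
          · have f3 : max r t = y - 1 := by
              rcases ht' with ⟨i1, i2, i3⟩ | ⟨i1, i2, i3⟩ | ⟨i1, i2, i3⟩
              · omega
              · omega
              · rw [max_eq_right (by omega)]; omega
            have f4 : max r w = y - 2 := by
              rcases ht' with ⟨i1, i2, i3⟩ | ⟨i1, i2, i3⟩ | ⟨i1, i2, i3⟩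
              · omega
              · omega
              · rw [max_eq_right (by omega)]; omega
            rw [f1, f2, f3, f4]
            clear f1 f2 f3 f4 ht'
            right; left
            refine ⟨⟨c2, ?_, c1⟩, rfl, hz, ?_, ?_⟩ <;> omega
        · have f1 : max x y = y := max_eq_right (by omega)
          have f2 : max s z = s := max_eq_left (by clear ht' g5; omega)
          by_cases c3 : x + y ≤ 2 * k + 3
          · have f3 : max r t = r := max_eq_left (by
              rcases ht' with ⟨i1, i2, i3⟩ | ⟨i1, i2, i3⟩ | ⟨i1, i2, i3⟩ <;> omega)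
            have f4 : max r w = r := max_eq_left (by
              rcases ht' with ⟨i1, i2, i3⟩ | ⟨i1, i2, i3⟩ | ⟨i1, i2, i3⟩ <;> omega)
            rw [f1, f2, f3, f4]
            clear f1 f2 f3 f4 ht'
            right; right; left
            refine ⟨⟨?_, c3, ?_⟩, rfl, hs', hr', hr'⟩ <;> omega
          · have f3 : max r t = y - 1 := by
              rcases ht' with ⟨i1, i2, i3⟩ | ⟨i1, i2, i3⟩ | ⟨i1, i2, i3⟩
              · omega
              · omega
              · rw [max_eq_right (by omega)]; omega
            have f4 : max r w = y - 2 := by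
              rcases ht' with ⟨i1, i2, i3⟩ | ⟨i1, i2, i3⟩ | ⟨i1, i2, i3⟩
              · omega
              · omega
              · rw [max_eq_right (by omega)]; omega
            rw [f1, f2, f3, f4]
            clear f1 f2 f3 f4 ht'
            right; right; right; left
            refine ⟨⟨?_, ?_, ?_⟩, rfl, hs', ?_, ?_⟩ <;> omega
      · have hs' : s + (2 * k + 1) = x := by
          clear ht' c5 c6 c7 c8 hr hz
          omega
        have hr' : r + (2 * k + 2) = x := by
          clear ht' c5 c6 c7 c8 hs hz
          omega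
        have g0 : y = 0 → 2 * k + 4 ≤ x := by
          clear ht' c5 c6 hs hr hz hs' hr'
          omega
        have g1 : y = 1 → 2 * k + 3 ≤ x := by
          clear ht' c5 c7 c8 hs hr hz hs' hr'
          omega
        clear hs hr c5 c6 c7 c8
        have f1 : max x y = x := max_eq_left (by omega)
        by_cases c2 : 2 * k + 1 + y ≤ x
        · have f2 : max s z = z := max_eq_right (by clear ht' g0 g1; omega)
          have f3 : max r t = r := max_eq_left (by
              rcases ht' with ⟨i1, i2, i3⟩ | ⟨i1, i2, i3⟩ | ⟨i1, i2, i3⟩ <;> omega)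
          have f4 : max r w = r := max_eq_left (by
              rcases ht' with ⟨i1, i2, i3⟩ | ⟨i1, i2, i3⟩ | ⟨i1, i2, i3⟩ <;> omega)
          rw [f1, f2, f3, f4]
          clear f1 f2 f3 f4 ht'
          right; right; right; right; right; left
          refine ⟨⟨?_, ⟨c2, g0, g1⟩, ?_⟩, rfl, hz, hr', hr'⟩ <;> omega
        · have hy2 : 2 ≤ y := by
            clear ht'
            omega
          have ht2 : t + 1 = y ∧ w + 2 = y := by
            clear g0 g1
            omega
          clear ht' g0 g1
          have f3 : max r t = y - 1 := by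
            rw [max_eq_right (by omega)]; omega
          have f4 : max r w = y - 2 := by
            rw [max_eq_right (by omega)]; omega
          by_cases c3 : x + y ≤ 4 * k + 2
          · have f2 : max s z = z := max_eq_right (by omega)
            rw [f1, f2, f3, f4]
            clear f1 f2 f3 f4
            right; right; right; right; right; right; left
            refine ⟨⟨?_, ⟨?_, c3, hy2⟩, ?_⟩, rfl, hz, ?_, ?_⟩ <;> omega
          · have f2 : max s z = s := max_eq_left (by omega)
            rw [f1, f2, f3, f4]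
            clear f1 f2 f3 f4
            right; right; right; right; right; right; right; left
            refine ⟨⟨?_, ⟨?_, ?_⟩, ?_⟩, rfl, hs', ?_, ?_⟩ <;> omega
    have hr : u.1.val = v.1.val ∧ u.2.val = v.2.val := by
      rcases h24' with ⟨g1, g⟩ | ⟨g1, g⟩ | ⟨g1, g⟩ | ⟨g1, g⟩
      · exact orr_0 hk _ _ _ _ _ _ _ _ (reg u) (reg v) g1 g
      · exact orr_1 hk _ _ _ _ _ _ _ _ (reg u) (reg v) g1 g
      · exact orr_2 hk _ _ _ _ _ _ _ _ (reg u) (reg v) g1 g
      · exact orr_3 hk _ _ _ _ _ _ _ _ (reg u) (reg v) g1 g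
    exact Prod.ext (Fin.ext hr.1) (Fin.ext hr.2)
  · rw [Finset.card_insert_of_notMem, Finset.card_insert_of_notMem, Finset.card_insert_of_notMem,
      Finset.card_singleton]
    · simpa using h34
    · simp only [Finset.mem_insert, Finset.mem_singleton, not_or]; exact ⟨h23, h24⟩
    · simp only [Finset.mem_insert, Finset.mem_singleton, not_or]; exact ⟨h12, h13, h14⟩

end Pool.Agent.MdimSq
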